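import Pool.Agent.Lib_helper52.TFS.A5

/-!
# Subtask A, part 6: the main theorem
-/

set_option autoImplicit false

open scoped ENNReal

namespace TFS.SubA

open NormedSpace FreeGroup

open scoped commutatorElement

/-- the subgroup generated by the second generator -/
def Lam1 : Subgroup F3 := Subgroup.closure (FreeGroup.of '' ({1} : Set (Fin 3)))

theorem Lam1_le : Lam1 ≤ Lam2 :=
  Subgroup.closure_mono (Set.image_mono (by
    intro x hx
    rw [Set.mem_singleton_iff] at hx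
    subst hx; simp))

theorem of1_mem : (FreeGroup.of 1 : F3) ∈ Lam1 := Subgroup.subset_closure ⟨1, by simp, rfl⟩

theorem of2_mem : (FreeGroup.of 2 : F3) ∈ Lam2 := Subgroup.subset_closure ⟨2, by simp, rfl⟩

/-- projection onto words not starting with a power of the second generator -/
noncomputable def Qa : BL F3 := pr (YJ ({1} : Set (Fin 3)))ᶜ

theorem Qa_comp {y : BL F3} (hy : y ∈ CrS Lam1) : Qa * y * Qa = tau y • Qa := by
  refine pr_mul_pr Lam1 _ ?_ hy
  intro μ hμ hμ1 g hg hg'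
  exact hg' (closure_mul_mem hμ hμ1 hg)

/-- `b (1 - Q_{b⁻¹}) = Q' b (1 - Q_{b⁻¹})` -/
theorem b_identity : lam (FreeGroup.of 2 : F3) * (1 - pr (startsWith (2, false))) =
    Qa * (lam (FreeGroup.of 2 : F3) * (1 - pr (startsWith (2, false)))) := by
  have h1 := congrArg star (shift_identity 2)
  rw [star_mul, star_mul, star_star, star_sub, star_one, star_pr, star_pr] at h1
  have h2 : Qa * pr (startsWith ((2 : Fin 3), true)) = pr (startsWith ((2 : Fin 3), true)) := by
    refine pr_mul_sub' ?_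
    rintro g hg ⟨x, hx, e, hgx⟩
    have := sw_unique hg hgx
    simp only [Prod.mk.injEq] at this
    rw [← this.1] at hx
    simp at hx
  rw [h1, ← mul_assoc, h2]

theorem Qm_Qa : pr (startsWith ((2 : Fin 3), false)) * Qa = pr (startsWith ((2 : Fin 3), false)) := by
  refine pr_mul_sub ?_
  rintro g hg ⟨x, hx, e, hgx⟩
  have := sw_unique hg hgx
  simp only [Prod.mk.injEq] at this
  rw [← this.1] at hx
  simp at hx

theorem phi_b_phi (φ : BL F3) (hφ : star φ = φ) (hφn : ‖φ‖ ≤ 1) :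
    ‖φ * lam (FreeGroup.of 2) * φ‖ ≤ 2 * ‖φ * Qa‖ := by
  set b : BL F3 := lam (FreeGroup.of 2) with hb
  set Qm : BL F3 := pr (startsWith ((2 : Fin 3), false)) with hQm
  have e : φ * b * φ = (φ * Qa) * (b * (1 - Qm)) * φ + φ * b * Qm * star (φ * Qa) := by
    have e1 : star (φ * Qa) = Qa * φ := by
      rw [star_mul, hφ, Qa, star_pr]
    rw [e1]
    calc φ * b * φ = φ * (b * (1 - Qm)) * φ + φ * b * Qm * φ := by noncomm_ring
      _ = φ * (Qa * (b * (1 - Qm))) * φ + φ * b * (Qm * Qa) * φ := by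
          rw [← b_identity, Qm_Qa]
      _ = _ := by noncomm_ring
  have hbn : ‖b‖ ≤ 1 := by
    refine norm_le_one_of_star_mul ?_
    rw [hb, star_lam, ← lam_mul, inv_mul_cancel, lam_one]
  have hQmn : ‖Qm‖ ≤ 1 := norm_pr_le _
  have hQmn' : ‖1 - Qm‖ ≤ 1 := by rw [hQm, ← pr_compl]; exact norm_pr_le _
  rw [e]
  refine (norm_add_le _ _).trans ?_
  have h1 : ‖(φ * Qa) * (b * (1 - Qm)) * φ‖ ≤ ‖φ * Qa‖ * (1 * 1) * 1 := by
    refine (_root_.norm_mul_le _ _).trans (mul_le_mul ?_ hφn (norm_nonneg _) (by positivity))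
    refine (_root_.norm_mul_le _ _).trans (mul_le_mul_of_nonneg_left ?_ (norm_nonneg _))
    exact (_root_.norm_mul_le _ _).trans (mul_le_mul hbn hQmn' (norm_nonneg _) zero_le_one)
  have h2 : ‖φ * b * Qm * star (φ * Qa)‖ ≤ (1 * 1 * 1) * ‖φ * Qa‖ := by
    refine (_root_.norm_mul_le _ _).trans ?_
    refine mul_le_mul ?_ (norm_star (φ * Qa)).le (norm_nonneg _) (by norm_num)
    refine (_root_.norm_mul_le _ _).trans (mul_le_mul ?_ hQmn (norm_nonneg _) (by norm_num))
    exact (_root_.norm_mul_le _ _).trans (mul_le_mul hφn hbn (norm_nonneg _) zero_le_one)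
  linarith

/-- estimate of `φ Q'` -/
theorem phi_Q (R : BL F3) (hR : R ∈ unitary (BL F3)) (hRm : R ∈ CrS Lam1) (q : ℝ)
    (hτ : tau R = ((1 - q : ℝ) : ℂ)) (hq : 0 ≤ q) (M : ℕ) (hM : 0 < M) :
    ‖phiel R M * Qa‖ ≤ M / 2 * Real.sqrt (2 * q) := by
  obtain ⟨-, -, -, hW⟩ := phi_bound R hR M hM
  have hQan : ‖Qa‖ ≤ 1 := norm_pr_le _
  have hRn : ‖R‖ ≤ 1 := norm_le_one_of_star_mul (Unitary.mem_iff.mp hR).1
  have hone : ‖(1 : BL F3)‖ ≤ 1 := norm_proj_le (star_one _) (one_mul 1)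
  have hRR : R * star R = 1 := (Unitary.mem_iff.mp hR).2
  -- ψ Q'
  have h1 : ‖(star R - 1) * Qa‖ ≤ Real.sqrt (2 * q) := by
    refine Real.le_sqrt_of_sq_le ?_
    rw [pow_two, ← CStarRing.norm_star_mul_self]
    have e1 : star ((star R - 1) * Qa) * ((star R - 1) * Qa) =
        Qa * ((R - 1) * (star R - 1)) * Qa := by
      rw [star_mul, star_sub, star_star, star_one, Qa, star_pr]; noncomm_ring
    have e2 : (R - 1) * (star R - 1) = (2 : ℂ) • 1 + ((-1 : ℂ) • R + (-1 : ℂ) • star R) := by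
      have : (R - 1) * (star R - 1) = R * star R - R - star R + 1 := by noncomm_ring
      rw [this, hRR]; module
    have hm : (R - 1) * (star R - 1) ∈ CrS Lam1 :=
      mul_mem (sub_mem hRm (one_mem _)) (sub_mem (star_mem hRm) (one_mem _))
    rw [e1, Qa_comp hm, e2, tau_add, tau_add, tau_smul, tau_smul, tau_smul, tau_one, tau_star, hτ]
    have e3 : (2 : ℂ) * 1 + (-1 * ((1 - q : ℝ) : ℂ) + -1 * star ((1 - q : ℝ) : ℂ)) =
        ((2 * q : ℝ) : ℂ) := by
      have : star ((1 - q : ℝ) : ℂ) = ((1 - q : ℝ) : ℂ) := Complex.conj_ofReal _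
      rw [this]; push_cast; ring
    rw [e3, norm_smul, Complex.norm_real, Real.norm_eq_abs, abs_of_nonneg (by positivity)]
    calc 2 * q * ‖Qa‖ ≤ 2 * q * 1 := mul_le_mul_of_nonneg_left hQan (by positivity)
      _ = 2 * q := mul_one _
  have h2 : 1 - Wel R = (4 : ℂ)⁻¹ • ((R - 1) * (star R - 1)) := by
    have : (R - 1) * (star R - 1) = R * star R - R - star R + 1 := by noncomm_ring
    have h3 : (1 : BL F3) = (4 : ℂ)⁻¹ • (4 : BL F3) := by
      have h4 : (4 : BL F3) = (4 : ℂ) • (1 : BL F3) := by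
        rw [← Algebra.algebraMap_eq_smul_one, map_ofNat]
      rw [h4, smul_smul]; norm_num
    rw [this, hRR, Wel]
    nth_rewrite 1 [h3]
    rw [← smul_sub]
    congr 1
    have h5 : (4 : BL F3) = 1 + 1 + 2 := by norm_num
    rw [h5]
    abel
  have h3 : ‖(1 - Wel R) * Qa‖ ≤ 1 / 2 * Real.sqrt (2 * q) := by
    rw [h2, smul_mul_assoc, norm_smul, mul_assoc]
    have h4 : ‖(R - 1) * ((star R - 1) * Qa)‖ ≤ 2 * Real.sqrt (2 * q) := by
      refine (_root_.norm_mul_le _ _).trans (mul_le_mul ?_ h1 (norm_nonneg _) (by norm_num))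
      have := norm_sub_le R (1 : BL F3)
      linarith
    have h5 : ‖((4 : ℂ)⁻¹)‖ = 1 / 4 := by simp
    rw [h5]
    linarith
  have h4 : phiel R M = (∑ i ∈ Finset.range M, Wel R ^ i) * (1 - Wel R) := by
    have := geom_sum_mul_neg (Wel R) M
    rw [this, phiel]
  have h5 : ‖∑ i ∈ Finset.range M, Wel R ^ i‖ ≤ M := by
    refine (norm_sum_le _ _).trans ?_
    calc ∑ i ∈ Finset.range M, ‖Wel R ^ i‖ ≤ ∑ _i ∈ Finset.range M, (1 : ℝ) := by
          refine Finset.sum_le_sum fun i _ => ?_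
          rcases Nat.eq_zero_or_pos i with rfl | hi
          · rw [pow_zero]; exact hone
          · exact (norm_pow_le' _ hi).trans (pow_le_one₀ (norm_nonneg _) hW)
      _ = M := by simp
  rw [h4, mul_assoc]
  calc _ ≤ ‖∑ i ∈ Finset.range M, Wel R ^ i‖ * ‖(1 - Wel R) * Qa‖ := _root_.norm_mul_le _ _
    _ ≤ M * (1 / 2 * Real.sqrt (2 * q)) := mul_le_mul h5 h3 (norm_nonneg _) (Nat.cast_nonneg M)
    _ = _ := by ring

/-- the trace as an additive homomorphism -/
noncomputable def tauHom : BL F3 →+ ℂ where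
  toFun := tau
  map_zero' := by
    have := tau_smul (0 : ℂ) (0 : BL F3)
    rw [zero_smul, zero_mul] at this
    exact this
  map_add' := tau_add

theorem of_pow_eq_one {n : ℕ} (h : (FreeGroup.of 1 : F3) ^ n = 1) : n = 0 := by
  have h1 := congrArg FreeGroup.norm h
  rwa [norm_of_pow, FreeGroup.norm_one] at h1

theorem lam_pow (g : F3) (n : ℕ) : lam g ^ n = lam (g ^ n) := by
  induction n with
  | zero => rw [pow_zero, pow_zero, lam_one]
  | succ n ih => rw [pow_succ, pow_succ, lam_mul, ih]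

theorem tau_R (r : ℝ) (hr0 : 0 ≤ r) (hr1 : r < 1) :
    tau ((lam (FreeGroup.of 1 : F3) + (r : ℂ) • 1) *
      ∑' n : ℕ, (-((r : ℂ) • lam (FreeGroup.of 1 : F3))) ^ n) = r := by
  set a : BL F3 := lam (FreeGroup.of 1) with ha
  have han : ‖a‖ ≤ 1 := by
    refine norm_le_one_of_star_mul ?_
    rw [ha, star_lam, ← lam_mul, inv_mul_cancel, lam_one]
  have hna : ‖-((r : ℂ) • a)‖ < 1 := by
    rw [norm_neg, norm_smul, Complex.norm_real, Real.norm_eq_abs, abs_of_nonneg hr0]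
    nlinarith [norm_nonneg a]
  have hs : Summable (fun n : ℕ => (-((r : ℂ) • a)) ^ n) := summable_geometric_of_norm_lt_one hna
  have hpow : ∀ n : ℕ, (-((r : ℂ) • a)) ^ n = ((-(r : ℂ)) ^ n) • lam ((FreeGroup.of 1 : F3) ^ n) := by
    intro n
    rw [← neg_smul, smul_pow, ha, lam_pow]
  have h1 : HasSum (fun n : ℕ => tau ((-((r : ℂ) • a)) ^ n)) (tau (∑' n : ℕ, (-((r : ℂ) • a)) ^ n)) :=
    hs.hasSum.map tauHom continuous_tau
  have h2 : HasSum (fun n : ℕ => tau (a * (-((r : ℂ) • a)) ^ n))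
      (tau (a * ∑' n : ℕ, (-((r : ℂ) • a)) ^ n)) :=
    (hs.hasSum.mul_left a).map tauHom continuous_tau
  have v1 : ∀ n : ℕ, tau ((-((r : ℂ) • a)) ^ n) = if n = 0 then 1 else 0 := by
    intro n
    rw [hpow, tau_smul, tau_lam]
    by_cases hn : n = 0
    · subst hn; simp
    · rw [if_neg hn, if_neg (fun h => hn (of_pow_eq_one h)), mul_zero]
  have v2 : ∀ n : ℕ, tau (a * (-((r : ℂ) • a)) ^ n) = 0 := by
    intro n
    rw [hpow, mul_smul_comm, tau_smul, ha, ← lam_mul, ← pow_succ', tau_lam,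
      if_neg (fun h => Nat.succ_ne_zero n (of_pow_eq_one h)), mul_zero]
  have s1 : tau (∑' n : ℕ, (-((r : ℂ) • a)) ^ n) = 1 := by
    refine h1.unique ?_
    have : (fun n : ℕ => tau ((-((r : ℂ) • a)) ^ n)) = fun n => if n = 0 then 1 else 0 :=
      funext v1
    rw [this]
    exact hasSum_ite_eq 0 1
  have s2 : tau (a * ∑' n : ℕ, (-((r : ℂ) • a)) ^ n) = 0 := by
    refine h2.unique ?_
    have : (fun n : ℕ => tau (a * (-((r : ℂ) • a)) ^ n)) = fun _ => 0 := funext v2
    rw [this]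
    exact hasSum_zero
  rw [add_mul, tau_add, s2, smul_mul_assoc, one_mul, tau_smul, s1]
  simp

theorem R_mem (r : ℝ) :
    (lam (FreeGroup.of 1 : F3) + (r : ℂ) • 1) *
      ∑' n : ℕ, (-((r : ℂ) • lam (FreeGroup.of 1 : F3))) ^ n ∈ CrS Lam1 := by
  have h1 : lam (FreeGroup.of 1 : F3) ∈ CrS Lam1 := lam_mem_CrS of1_mem
  refine mul_mem (add_mem h1 (SMulMemClass.smul_mem _ (one_mem _))) ?_
  exact tsum_mem (isClosed_CrS Lam1) fun n =>
    pow_mem (neg_mem (SMulMemClass.smul_mem _ h1)) n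

theorem AU_list (l : List (BL F3)) (hl : ∀ h ∈ l, h ∈ CrS Lam2 ∧ star h = h) :
    ∀ (c : BL F3), c ∈ CrS Lam2 → star c * c = 1 → c * star c = 1 → ∀ δ : ℝ, 0 < δ →
      AU (Cr F3) (lam (FreeGroup.of 0) * c)
        (lam (FreeGroup.of 0) * (c * (l.map fun h => exp (Complex.I • h)).prod)) δ := by
  induction l with
  | nil =>
    intro c _ _ _ δ hδ
    simpa using (AU.refl (Cr F3) (lam (FreeGroup.of 0) * c)).mono hδ.le
  | cons h l ih =>
    intro c hc hc1 hc2 δ hδ
    obtain ⟨hhm, hhs⟩ := hl h (by simp)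
    have g1 := exp_I_star_mul h hhs 1
    have g2 := exp_I_mul_star h hhs 1
    rw [Complex.ofReal_one, one_mul] at g1 g2
    have hreal : tau h = ((tau h).re : ℂ) := by
      have h1 := tau_star h
      rw [hhs] at h1
      exact (Complex.conj_eq_iff_re.mp h1.symm).symm
    have hz : tau (h - (((tau h).re : ℝ) : ℂ) • (1 : BL F3)) = 0 := by
      rw [sub_eq_add_neg, ← neg_smul, tau_add, tau_smul, tau_one, ← hreal]; ring
    have hone : (1 : BL F3) ∈ CrS Lam2 := one_mem _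
    have step1 := AU_exp (Cr F3) (CrS Lam2) isClosed_Cr (isClosed_CrS Lam2) (CrS_le_Cr Lam2)
      (lam (FreeGroup.of 0)) (lam_mem_Cr _)
      (by rw [star_lam, ← lam_mul, inv_mul_cancel, lam_one])
      (by rw [star_lam, ← lam_mul, mul_inv_cancel, lam_one]) h hhm hhs (tau h).re
      (fun c' hc' hc1' hc2' N => K_conc c' _ hc' hc1' hc2'
        (sub_mem hhm (SMulMemClass.smul_mem _ hone)) hz N) c hc hc1 hc2 (δ / 2) (by positivity)
    set c' : BL F3 := c * exp (Complex.I • h) with hc'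
    have hc'm : c' ∈ CrS Lam2 := by
      let +nondep : NormedAlgebra ℚ (BL F3) := .restrictScalars ℚ ℂ (BL F3)
      exact mul_mem hc (exp_mem (R := ℂ) (isClosed_CrS Lam2) (SMulMemClass.smul_mem _ hhm))
    have hc'1 : star c' * c' = 1 := by
      rw [hc', star_mul]
      calc _ = star (exp (Complex.I • h)) * (star c * c) * exp (Complex.I • h) := by
            simp only [mul_assoc]
        _ = 1 := by rw [hc1, mul_one, g1]
    have hc'2 : c' * star c' = 1 := by
      rw [hc', star_mul]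
      calc _ = c * (exp (Complex.I • h) * star (exp (Complex.I • h))) * star c := by
            simp only [mul_assoc]
        _ = 1 := by rw [g2, mul_one, hc2]
    have step2 := ih (fun h' hh' => hl h' (List.mem_cons_of_mem _ hh')) c' hc'm hc'1 hc'2 (δ / 2)
      (by positivity)
    rw [mul_assoc, ← hc'] at step1
    have := step1.trans step2
    rw [List.map_cons, List.prod_cons, ← mul_assoc c, ← hc']
    exact this.mono (by linarith)

instance instClosedB : IsClosed ((CrS Lam2 : StarSubalgebra ℂ (BL F3)) : Set (BL F3)) :=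
  isClosed_CrS Lam2

/-- a unitary of `BL F3` in `CrS Lam2` as a unitary of the C*-algebra `CrS Lam2` -/
noncomputable def toD (x : BL F3) (hx : x ∈ CrS Lam2) (hu : x ∈ unitary (BL F3)) :
    unitary (CrS Lam2) :=
  ⟨⟨x, hx⟩, by
    rw [Unitary.mem_iff]
    exact ⟨Subtype.ext (Unitary.mem_iff.mp hu).1, Subtype.ext (Unitary.mem_iff.mp hu).2⟩⟩

theorem coe_toD (x : BL F3) (hx : x ∈ CrS Lam2) (hu : x ∈ unitary (BL F3)) :
    (((toD x hx hu : unitary (CrS Lam2)) : CrS Lam2) : BL F3) = x := rfl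

theorem lam_unitary (g : F3) : lam g ∈ unitary (BL F3) := (lamU g).2

theorem coe_phiel (x : BL F3) (hx : x ∈ CrS Lam2) (M : ℕ) :
    ((phiel (⟨x, hx⟩ : CrS Lam2) M : CrS Lam2) : BL F3) = phiel x M := rfl

/-- the commutator is connected to the identity -/
theorem comm_joined :
    Joined (1 : unitary (CrS Lam2))
      (toD (lam (FreeGroup.of 1)) (CrS_mono Lam1_le (lam_mem_CrS of1_mem)) (lam_unitary _) *
        toD (lam (FreeGroup.of 2)) (lam_mem_CrS of2_mem) (lam_unitary _) *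
        (toD (lam (FreeGroup.of 1)) (CrS_mono Lam1_le (lam_mem_CrS of1_mem)) (lam_unitary _))⁻¹ *
        (toD (lam (FreeGroup.of 2)) (lam_mem_CrS of2_mem) (lam_unitary _))⁻¹) := by
  set q : ℝ := 1 / (2 * 10 ^ 10) with hq
  have hq0 : 0 ≤ q := by positivity
  have hq1 : q ≤ 1 := by rw [hq]; norm_num
  obtain ⟨R, hRu, hRa, hRe⟩ := R_exists (1 - q) (by linarith) (by rw [hq]; norm_num)
    (lam (FreeGroup.of 1 : F3)) (lam_unitary _)
  have hRm1 : R ∈ CrS Lam1 := by rw [hRe]; exact R_mem _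
  have hRm2 : R ∈ CrS Lam2 := CrS_mono Lam1_le hRm1
  have hRτ : tau R = ((1 - q : ℝ) : ℂ) := by
    rw [hRe]; exact tau_R (1 - q) (by linarith) (by rw [hq]; norm_num)
  obtain ⟨M, hM⟩ : ∃ M : ℕ, M = 200 := ⟨200, rfl⟩
  have hM0 : 0 < M := by rw [hM]; norm_num
  obtain ⟨b1, b2, b3, b4⟩ := phi_bound R hRu M hM0
  have hβ : Real.sqrt (2 / (M : ℝ)) = 1 / 10 := by
    rw [hM, show (2 / ((200 : ℕ) : ℝ)) = (1 / 10) ^ 2 by norm_num]
    exact Real.sqrt_sq (by norm_num)
  rw [hβ] at b1 b2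
  have hsq : Real.sqrt (2 * q) = 1 / 10 ^ 5 := by
    rw [show 2 * q = (1 / 10 ^ 5) ^ 2 by rw [hq]; norm_num]
    exact Real.sqrt_sq (by norm_num)
  have hγ1 := phi_Q R hRu hRm1 q hRτ hq0 M hM0
  have hγ2 := phi_b_phi (phiel R M) (star_phiel R M) b3
  rw [hsq] at hγ1
  have hMr : (M : ℝ) = 200 := by rw [hM]; norm_num
  rw [hMr] at hγ1
  have hγ : ‖phiel R M * lam (FreeGroup.of 2) * phiel R M‖ ≤ 1 / 500 := by
    refine hγ2.trans ?_
    have : (200 : ℝ) / 2 * (1 / 10 ^ 5) = 1 / 1000 := by norm_num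
    rw [this] at hγ1
    linarith
  refine joined_comm (toD (lam (FreeGroup.of 1)) (CrS_mono Lam1_le (lam_mem_CrS of1_mem))
    (lam_unitary _)) (toD (lam (FreeGroup.of 2)) (lam_mem_CrS of2_mem) (lam_unitary _))
    (toD R hRm2 hRu) (phiel (⟨R, hRm2⟩ : CrS Lam2) M) (star_phiel _ _) b3 (1 / 10) (1 / 500)
    (lt_of_le_of_lt hRa ?_) b1 b2 hγ ?_
  · rw [hq]; norm_num
  · have := Real.pi_le_four
    nlinarith [Real.pi_pos]

/-- the commutator is a product of exponentials -/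
theorem comm_list : ∃ l : List (BL F3), (∀ h ∈ l, h ∈ CrS Lam2 ∧ star h = h) ∧
    (l.map fun h => exp (Complex.I • h)).prod =
      lam ((FreeGroup.of 1 : F3) * FreeGroup.of 2 * (FreeGroup.of 1)⁻¹ * (FreeGroup.of 2)⁻¹) := by
  obtain ⟨l, hl⟩ := Unitary.mem_pathComponentOne_iff.mp
    (show _ ∈ pathComponent (1 : unitary (CrS Lam2)) from comm_joined)
  refine ⟨l.map (fun x : selfAdjoint (CrS Lam2) => ((x : CrS Lam2) : BL F3)), ?_, ?_⟩
  · intro h hh
    rw [List.mem_map] at hh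
    obtain ⟨x, -, rfl⟩ := hh
    exact ⟨(x : CrS Lam2).2, congrArg Subtype.val x.2⟩
  · have h1 : ∀ x : selfAdjoint (CrS Lam2), exp (Complex.I • ((x : CrS Lam2) : BL F3)) =
        (((selfAdjoint.expUnitary x : unitary (CrS Lam2)) : CrS Lam2) : BL F3) := by
      intro x
      let +nondep : NormedAlgebra ℚ (BL F3) := .restrictScalars ℚ ℂ (BL F3)
      let +nondep : NormedAlgebra ℚ (CrS Lam2) := .restrictScalars ℚ ℂ (CrS Lam2)
      rw [selfAdjoint.expUnitary_coe]
      exact (map_exp (CrS Lam2).subtype continuous_subtype_val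
        (Complex.I • (x : CrS Lam2))).symm
    rw [List.map_map]
    have h2 : ((fun h => exp (Complex.I • h)) ∘ fun x : selfAdjoint (CrS Lam2) =>
        ((x : CrS Lam2) : BL F3)) = fun x =>
        (((CrS Lam2).subtype : CrS Lam2 →* BL F3).comp (unitary (CrS Lam2)).subtype)
          (selfAdjoint.expUnitary x) := by
      funext x
      exact h1 x
    have h3 : List.map (fun x : selfAdjoint (CrS Lam2) =>
        (((CrS Lam2).subtype : CrS Lam2 →* BL F3).comp (unitary (CrS Lam2)).subtype)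
          (selfAdjoint.expUnitary x)) l = List.map
        (((CrS Lam2).subtype : CrS Lam2 →* BL F3).comp (unitary (CrS Lam2)).subtype)
          (List.map selfAdjoint.expUnitary l) := by
      rw [List.map_map]; rfl
    rw [h2, h3, ← map_list_prod, hl]
    rw [lam_mul, lam_mul, lam_mul, ← star_lam, ← star_lam]
    rfl

theorem _root_.TFS.au_main (δ : ℝ) (hδ : 0 < δ) :
    ∃ u : unitary (BL (FreeGroup (Fin 3))),
      (u : BL (FreeGroup (Fin 3))) ∈ Cr (FreeGroup (Fin 3)) ∧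
      ∃ z : ℂ, ‖z‖ = 1 ∧ ‖(u : BL (FreeGroup (Fin 3))) * lam (FreeGroup.of (0 : Fin 3)) *
          star (u : BL (FreeGroup (Fin 3))) -
        z • lam (FreeGroup.of (0 : Fin 3) * ⁅FreeGroup.of (1 : Fin 3), FreeGroup.of (2 : Fin 3)⁆)‖
          < δ := by
  obtain ⟨l, hl, hprod⟩ := comm_list
  have h := AU_list l hl 1 (one_mem _) (by simp) (by simp) (δ / 2) (by positivity)
  rw [hprod, one_mul, mul_one, ← lam_mul, ← commutatorElement_def] at h
  obtain ⟨u, hu, z, hz, hb⟩ := h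
  exact ⟨u, hu, z, hz, lt_of_le_of_lt hb (by linarith)⟩

end TFS.SubA
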