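import Pool.Agent.Lib_helper52.TFS.D1

/-!
# Subtask D, part 2: non-isomorphism
-/

set_option autoImplicit false
set_option linter.unusedSectionVars false

namespace TFS

namespace SubD

open Multiplicative (toAdd ofAdd)

/-- the element with value `a` at `p`, `a⁻¹` at `p'` -/
noncomputable def two (s : St) (a : s.A) (p p' : s.Ω) : s.G :=
  ⟨AltAct.dd s.act a p p', AltAct.dd_mem a p p'⟩

theorem perm_two (s : St) (a : s.A) (p p' : s.Ω) : s.perm (two s a p p') = 1 := by
  show s.act (AltAct.dd s.act a p p').e = 1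
  rw [AltAct.dd_e, map_one]

theorem e_two (s : St) (a : s.A) (p p' : s.Ω) : (s.inc (two s a p p')).e = 1 :=
  AltAct.dd_e a p p'

theorem v_two (s : St) (a : s.A) {p p' : s.Ω} (h : p ≠ p') (ω : s.Ω) :
    St.v (two s a p p') ω = if ω = p then a else if ω = p' then a⁻¹ else 1 :=
  AltAct.dd_v h a ω

theorem v_two_1 (s : St) (a : s.A) {p p' : s.Ω} (h : p ≠ p') :
    St.v (two s a p p') p = a := by rw [v_two s a h, if_pos rfl]

theorem v_two_2 (s : St) (a : s.A) {p p' : s.Ω} (h : p ≠ p') :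
    St.v (two s a p p') p' = a⁻¹ := by rw [v_two s a h, if_neg h.symm, if_pos rfl]

theorem v_two_0 (s : St) (a : s.A) {p p' : s.Ω} (h : p ≠ p') {ω : s.Ω} (h1 : ω ≠ p)
    (h2 : ω ≠ p') : St.v (two s a p p') ω = 1 := by rw [v_two s a h, if_neg h1, if_neg h2]

/-- an element with trivial top coordinate commutes with `x` if its coordinates are invariant and
commute -/
theorem commute_of_e_one {s : St} {y x : s.G} (hy : (s.inc y).e = 1)
    (hinv : ∀ ω, St.v y (s.perm x ω) = St.v y ω) (h : ∀ ω, Commute (St.v y ω) (St.v x ω)) :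
    Commute y x := by
  have hpy : s.perm y = 1 := by rw [St.perm_apply, hy, map_one]
  apply St.G.ext
  · intro ω
    have e1 : St.v (y * x) ω = St.v y ω * St.v x ω := by rw [St.v_mul, hinv]
    have e2 : St.v (x * y) ω = St.v x ω * St.v y ω := by
      rw [St.v_mul, hpy, Equiv.Perm.one_apply]
    have e3 : St.v (y * x) ω = St.v (x * y) ω := by rw [e1, e2]; exact (h ω).eq
    exact e3
  · rw [map_mul, map_mul, Wr.mul_e, Wr.mul_e, hy, one_mul, mul_one]

/-- the base element -/
noncomputable def y0 (s : St) (p p' : s.Ω) : s.G := two s (1, 1, ofAdd 1) p p'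

theorem mark_y0 (s : St) {p p' : s.Ω} (h : p ≠ p') : Mark s (y0 s p p') p p' where
  ne := h
  n1 := by rw [St.n, y0, v_two_1 s _ h]; rfl
  n2 := by rw [St.n, y0, v_two_2 s _ h]; rfl
  n0 := fun ω h1 h2 => by rw [St.n, y0, v_two_0 s _ h h1 h2]; rfl
  f1 := by rw [y0, perm_two]; rfl
  f2 := by rw [y0, perm_two]; rfl

/-- no `PP` at level zero -/
theorem not_PP_zero (s : St) {p p' : s.Ω} (h : p ≠ p') (q : ℕ) : ¬ PP q (y0 s p p') := by
  rintro ⟨y, c, -, -, hN⟩
  obtain ⟨r, hr, hrc⟩ := exists_pow_perm c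
  apply not_commute_pow hr hN 1 one_pos
  rw [pow_one, pow_one]
  have hcen : ∀ (ω : s.Ω) (a : s.A), Commute (St.v (y0 s p p') ω) a := by
    intro ω a
    by_cases h1 : ω = p
    · subst h1
      rw [y0, v_two_1 s _ h, Prod.commute_iff, Prod.commute_iff]
      exact ⟨Commute.one_left _, Commute.one_left _, Commute.all _ _⟩
    by_cases h2 : ω = p'
    · subst h2
      rw [y0, v_two_2 s _ h, Prod.commute_iff, Prod.commute_iff]
      refine ⟨?_, ?_, Commute.all _ _⟩
      · show Commute ((1 : F6)⁻¹) _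
        rw [inv_one]; exact Commute.one_left _
      · show Commute ((1 : s.B)⁻¹) _
        rw [inv_one]; exact Commute.one_left _
    · rw [y0, v_two_0 s _ h h1 h2]; exact Commute.one_left _
  refine commute_of_e_one (e_two s _ p p') (fun ω => ?_) (fun ω => hcen ω _)
  rw [hrc]; rfl

section Tower

variable (T : Tower) (ε : ℕ → Bool)

/-- the images of the base element -/
noncomputable def zz : ∀ m, (T.S m).G
  | 0 => y0 (T.S 0) T.w1 T.w2
  | m + 1 => T.c ε m (zz m)

/-- the first marked point -/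
def P1 : ∀ m, (T.S m).Ω
  | 0 => T.w1
  | m + 1 => (T.st m).i (P1 m)

/-- the second marked point -/
def P2 : ∀ m, (T.S m).Ω
  | 0 => T.w2
  | m + 1 => (T.st m).i (P2 m)

theorem mark_zz (m : ℕ) : Mark (T.S m) (zz T ε m) (P1 T m) (P2 T m) := by
  induction m with
  | zero => exact mark_y0 (T.S 0) T.w12
  | succ m ih => exact ih.step (T.st m) (xx m (ε m))

theorem descent (q : ℕ) (m : ℕ) : PP q (zz T ε m) → ∃ j < m, ∃ η : F6, η ^ q = xx j (ε j) := by
  induction m with
  | zero => intro h; exact absurd h (not_PP_zero (T.S 0) T.w12 q)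
  | succ m ih =>
    intro h
    rcases step_lemma (T.st m) (mark_zz T ε m) (xx m (ε m)) q h with h1 | h1
    · exact ⟨m, Nat.lt_succ_self m, h1⟩
    · obtain ⟨j, hj, hη⟩ := ih h1
      exact ⟨j, hj.trans (Nat.lt_succ_self m), hη⟩

theorem eps_of_PP (k m : ℕ) (h : PP (qq k) (zz T ε m)) : ε k = true := by
  have : Fact (qq k).Prime := ⟨qq_prime k⟩
  obtain ⟨j, -, η, hη⟩ := descent T ε (qq k) m h
  by_cases hjk : j = k
  · subst hjk
    by_contra hε
    rw [Bool.not_eq_true] at hε
    rw [xx, hε] at hη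
    simp only [Bool.false_eq_true, if_false] at hη
    exact not_root_cc (qq j) (qq_ge j) η hη
  · exfalso
    have hc : Nat.Coprime (qq j) (qq k) := qq_coprime hjk
    cases hε : ε j with
    | true =>
      rw [xx, hε, if_pos rfl] at hη
      exact not_root_gg (qq k) (qq_ge k) η hc hη
    | false =>
      rw [xx, hε] at hη
      simp only [Bool.false_eq_true, if_false] at hη
      exact not_root_gg_cc (qq k) (qq_ge k) η hc hη

/-- the witness in the other direction -/
theorem PP_of_root {s t : St} (st : Step s t) {z : s.G} {p1 p2 : s.Ω} (h : Mark s z p1 p2)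
    (q : ℕ) (hq : 0 < q) : PP q (st.c (gg ^ q) z) := by
  set Z : t.G := st.c (gg ^ q) z with hZ
  have hM : Mark t Z (st.i p1) (st.i p2) := h.step st (gg ^ q)
  set y : t.G := two t (gg, 1, 1) (st.i p1) (st.i p2) with hy
  set c : t.G := two t (FreeGroup.of 0, 1, 1) (st.i p1) (st.i p2) with hc
  have hpy : t.perm y = 1 := perm_two t _ _ _
  have hpc : t.perm c = 1 := perm_two t _ _ _
  have hinv : ∀ (a : t.A) (ω : t.Ω), St.v (two t a (st.i p1) (st.i p2)) (t.perm Z ω) =
      St.v (two t a (st.i p1) (st.i p2)) ω := by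
    intro a ω
    by_cases h1 : ω = st.i p1
    · rw [h1, hM.f1]
    by_cases h2 : ω = st.i p2
    · rw [h2, hM.f2]
    · rw [v_two_0 t a hM.ne h1 h2, v_two_0 t a hM.ne]
      · intro h3
        rw [← hM.f1] at h3
        exact h1 ((t.perm Z).injective h3)
      · intro h3
        rw [← hM.f2] at h3
        exact h2 ((t.perm Z).injective h3)
  have hyq1 : t.perm (y ^ q) = 1 := by rw [map_pow, hpy, one_pow]
  have hpw : t.perm ((y ^ q)⁻¹ * Z) = t.perm Z := by
    rw [map_mul, map_inv, hyq1, inv_one, one_mul]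
  refine ⟨y, c, ?_, ?_, ?_⟩
  · refine commute_of_e_one (e_two t _ _ _) (hinv _) (fun ω => ?_)
    by_cases h1 : ω = st.i p1
    · subst h1
      rw [hy, v_two_1 t _ hM.ne, v_p1 st h, Prod.commute_iff, Prod.commute_iff]
      exact ⟨(Commute.refl gg).pow_right q, Commute.one_left _, Commute.all _ _⟩
    by_cases h2 : ω = st.i p2
    · subst h2
      rw [hy, v_two_2 t _ hM.ne, v_p2 st h, Prod.commute_iff, Prod.commute_iff]
      exact ⟨((Commute.refl gg).pow_right q).inv_inv, Commute.one_right _, Commute.all _ _⟩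
    · rw [hy, v_two_0 t _ hM.ne h1 h2]; exact Commute.one_left _
  · refine (commute_of_e_one (e_two t _ _ _) (fun ω => ?_) (fun ω => ?_)).symm
    · rw [hpw]; exact hinv _ ω
    · by_cases h1 : ω = st.i p1
      · subst h1
        have hyf : t.perm y (st.i p1) = st.i p1 := by rw [hpy]; rfl
        rw [v_mul_fix hM.f1, v_inv_fix (perm_pow_fix hyf q), v_pow_fix hyf, v_p1 st h, hy,
          v_two_1 t _ hM.ne, v_two_1 t _ hM.ne, Prod.commute_iff, Prod.commute_iff]
        refine ⟨?_, Commute.one_left _, Commute.all _ _⟩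
        show Commute (FreeGroup.of 0) ((gg ^ q)⁻¹ * gg ^ q)
        rw [inv_mul_cancel]; exact Commute.one_right _
      by_cases h2 : ω = st.i p2
      · subst h2
        have hyf : t.perm y (st.i p2) = st.i p2 := by rw [hpy]; rfl
        rw [v_mul_fix hM.f2, v_inv_fix (perm_pow_fix hyf q), v_pow_fix hyf, v_p2 st h, hy,
          v_two_2 t _ hM.ne, v_two_2 t _ hM.ne, Prod.commute_iff, Prod.commute_iff]
        refine ⟨?_, ?_, Commute.all _ _⟩
        · show Commute (FreeGroup.of 0)⁻¹ (((gg⁻¹) ^ q)⁻¹ * (gg ^ q)⁻¹)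
          rw [inv_pow, inv_inv, mul_inv_cancel]; exact Commute.one_right _
        · show Commute ((1 : t.B)⁻¹) _
          rw [inv_one]; exact Commute.one_left _
      · rw [v_two_0 t _ hM.ne h1 h2]; exact Commute.one_left _
  · intro N hN hcom
    have hcf : t.perm c (st.i p1) = st.i p1 := by rw [hpc]; rfl
    have h1 := commute_v (perm_pow_fix hM.f1 N) (perm_pow_fix hcf N) hcom
    rw [v_pow_fix hM.f1, v_pow_fix hcf, v_p1 st h, hc, v_two_1 t _ hM.ne, Prod.commute_iff] at h1
    have h2 : Commute ((gg ^ q) ^ N) ((FreeGroup.of 0 : F6) ^ N) := h1.1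
    rw [← pow_mul] at h2
    exact not_commute_gg (FG.commute_of_pow (Nat.mul_pos hq hN).ne' hN.ne' h2)

end Tower

section Limit

variable {T : Tower} {ε : ℕ → Bool} {Γ : Type} [Group Γ] {ι : ∀ k, (T.S k).G →* Γ}

theorem lim_zz (h : IsLim (T.c ε) ι) (m : ℕ) : ι m (zz T ε m) = ι 0 (zz T ε 0) := by
  induction m with
  | zero => rfl
  | succ m ih => rw [← ih]; exact h.comp m (zz T ε m)

theorem lim_surj (h : IsLim (T.c ε) ι) (g : Γ) : ∃ k, ∀ m, k ≤ m → ∃ f, ι m f = g := by
  obtain ⟨k, f, hf⟩ := h.surj g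
  refine ⟨k, fun m hm => ?_⟩
  induction m, hm using Nat.le_induction with
  | base => exact ⟨f, hf⟩
  | succ m _ ih =>
    obtain ⟨f', hf'⟩ := ih
    exact ⟨T.c ε m f', by rw [h.comp, hf']⟩

theorem PP_lim_iff (h : IsLim (T.c ε) ι) (q : ℕ) :
    PP q (ι 0 (zz T ε 0)) → ∃ m, PP q (zz T ε m) := by
  rintro ⟨y, c, h1, h2, h3⟩
  obtain ⟨k1, hk1⟩ := lim_surj h y
  obtain ⟨k2, hk2⟩ := lim_surj h c
  obtain ⟨y', rfl⟩ := hk1 (max k1 k2) (le_max_left _ _)
  obtain ⟨c', rfl⟩ := hk2 (max k1 k2) (le_max_right _ _)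
  refine ⟨max k1 k2, y', c', ?_, ?_, fun N hN hcom => h3 N hN ?_⟩
  · rw [← lim_zz h (max k1 k2)] at h1
    apply h.inj (max k1 k2)
    rw [map_mul, map_mul]; exact h1.eq
  · rw [← lim_zz h (max k1 k2)] at h2
    apply h.inj (max k1 k2)
    rw [map_mul (ι (max k1 k2)) _ c', map_mul (ι (max k1 k2)) c', map_mul, map_inv, map_pow]
    exact h2.eq
  · have := hcom.map (ι (max k1 k2))
    rw [map_pow, map_pow, lim_zz h] at this
    exact this

theorem main_iff (h : IsLim (T.c ε) ι) (k : ℕ) : PP (qq k) (ι 0 (zz T ε 0)) ↔ ε k = true := by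
  constructor
  · intro hP
    obtain ⟨m, hm⟩ := PP_lim_iff h (qq k) hP
    exact eps_of_PP T ε k m hm
  · intro hε
    have h1 : PP (qq k) (zz T ε (k + 1)) := by
      have := PP_of_root (T.st k) (mark_zz T ε k) (qq k) (qq_prime k).pos
      show PP (qq k) ((T.st k).c (xx k (ε k)) (zz T ε k))
      rw [xx, hε, if_pos rfl]
      exact this
    have h2 := h1.map (ι (k + 1)) (h.inj (k + 1))
    rwa [lim_zz h] at h2

theorem countable_lim (h : IsLim (T.c ε) ι) : Countable Γ := by
  have h1 : ∀ k, Countable (T.S k).G := fun k => St.countable_G (T.S k)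
  have h2 : Function.Surjective (fun p : Σ k, (T.S k).G => ι p.1 p.2) := by
    intro g
    obtain ⟨k, f, hf⟩ := h.surj g
    exact ⟨⟨k, f⟩, hf⟩
  exact h2.countable

end Limit

theorem not_countable_bool : ¬ Countable (ℕ → Bool) := by
  intro h
  obtain ⟨f, hf⟩ := exists_surjective_nat (ℕ → Bool)
  refine Function.cantor_surjective (fun n => {k | f n k = true}) ?_
  intro S
  classical
  obtain ⟨n, hn⟩ := hf (fun k => decide (k ∈ S))
  refine ⟨n, ?_⟩
  ext k
  simp [hn]

end SubD

open SubD in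
/-- for every `ε₀` there is `ε` with `Γ ε` not isomorphic to `Γ ε₀`. -/
theorem noniso (T : Tower) (Γ : (ℕ → Bool) → Type) [∀ ε, Group (Γ ε)]
    (ι : ∀ ε k, (T.S k).G →* Γ ε) (h : ∀ ε, IsLim (T.c ε) (ι ε)) :
    ∀ ε₀, ∃ ε, IsEmpty (Γ ε₀ ≃* Γ ε) := by
  intro ε₀
  by_contra hcon
  push Not at hcon
  let θ : ∀ ε, Γ ε₀ ≃* Γ ε := fun ε => (hcon ε).some
  have := countable_lim (h ε₀)
  refine not_countable_bool ?_
  have hinj : Function.Injective (fun ε : ℕ → Bool => (θ ε).symm (ι ε 0 (zz T ε 0))) := by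
    have key : ∀ (ε : ℕ → Bool) (k : ℕ),
        PP (qq k) ((θ ε).symm (ι ε 0 (zz T ε 0))) ↔ ε k = true := by
      intro ε k
      rw [← main_iff (h ε) k]
      constructor
      · intro hP
        have := hP.map (θ ε).toMonoidHom (θ ε).injective
        simpa using this
      · intro hP
        exact hP.map (θ ε).symm.toMonoidHom (θ ε).symm.injective
    intro ε ε' hεε
    funext k
    have h1 := key ε k
    have h2 := key ε' k
    have hεε' : (θ ε).symm (ι ε 0 (zz T ε 0)) = (θ ε').symm (ι ε' 0 (zz T ε' 0)) := hεε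
    rw [hεε', h2] at h1
    exact Bool.eq_iff_iff.mpr h1.symm
  exact hinj.countable

end TFS
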