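import Pool.Agent.Lib_helper1.TFS.Basic

/-!
# Subtask A, part 1: coordinate projections, free group combinatorics, compression identities
-/

set_option autoImplicit false

open scoped ENNReal

namespace TFS.SubA

/-! ## Free group combinatorics -/

section Free

open FreeGroup

variable {α : Type*} [DecidableEq α]

theorem sw_unique {w w' : α × Bool} {g : FreeGroup α} (h : g ∈ startsWith w)
    (h' : g ∈ startsWith w') : w = w' := by
  have h1 : (FreeGroup.toWord g)[0]? = some w := h
  have h2 : (FreeGroup.toWord g)[0]? = some w' := h'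
  rw [h1] at h2
  exact Option.some.inj h2

theorem one_not_sw (w : α × Bool) : (1 : FreeGroup α) ∉ startsWith w := fun h =>
  startsWith.ne_one 1 h rfl

theorem mk_mul_mem_iff (w : α × Bool) (g : FreeGroup α) :
    mk [w] * g ∈ startsWith w ↔ g ∉ startsWith (w.1, !w.2) := by
  constructor
  · intro h hg
    have hg' : (FreeGroup.toWord g)[0]? = some (w.1, !w.2) := hg
    obtain ⟨L, hL⟩ : ∃ L, g.toWord = (w.1, !w.2) :: L := by
      cases hw : g.toWord with
      | nil => rw [hw] at hg'; simp at hg'
      | cons a L =>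
        rw [hw] at hg'
        simp only [List.getElem?_cons_zero, Option.some.injEq] at hg'
        exact ⟨L, by rw [hg']⟩
    have hred : IsReduced ((w.1, !w.2) :: L) := hL ▸ isReduced_toWord
    have hLred : IsReduced L := (List.isChain_cons.1 hred).2
    have hg2 : g = mk ((w.1, !w.2) :: L) := by rw [← hL, mk_toWord]
    have h3 : mk [w] * g = mk L := by
      rw [hg2, mul_mk]
      have : [w] ++ (w.1, !w.2) :: L = [] ++ (w.1, w.2) :: (w.1, !w.2) :: L := by simp
      rw [this]
      exact Quot.sound Red.Step.not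
    rw [h3] at h
    have h4 : (FreeGroup.toWord (mk L))[0]? = some w := h
    rw [toWord_mk, hLred.reduce_eq] at h4
    cases L with
    | nil => simp at h4
    | cons b L' =>
      simp only [List.getElem?_cons_zero, Option.some.injEq] at h4
      subst h4
      have := (isReduced_cons_cons.mp hred).1 rfl
      simp at this
  · exact startsWith_mk_mul g

/-- words starting with a letter from `J` (or its inverse) -/
def YJ (J : Set α) : Set (FreeGroup α) := {g | ∃ x ∈ J, ∃ e : Bool, g ∈ startsWith (x, e)}

theorem letters_mem {J : Set α} {μ : FreeGroup α}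
    (hμ : μ ∈ Subgroup.closure (FreeGroup.of '' J)) : ∀ p ∈ μ.toWord, p.1 ∈ J := by
  induction hμ using Subgroup.closure_induction with
  | mem x hx =>
    obtain ⟨y, hy, rfl⟩ := hx
    intro p hp
    rw [toWord_of, List.mem_singleton] at hp
    subst hp; exact hy
  | one => intro p hp; simp at hp
  | mul x y _ _ hx hy =>
    intro p hp
    have := (toWord_mul_sublist x y).subset hp
    rw [List.mem_append] at this
    exact this.elim (hx p) (hy p)
  | inv x _ hx =>
    intro p hp
    rw [toWord_inv, invRev, List.mem_reverse, List.mem_map] at hp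
    obtain ⟨q, hq, rfl⟩ := hp
    exact hx q hq

theorem list_mul_mem {J : Set α} {g : FreeGroup α} (hg : g ∉ YJ J) (L : List (α × Bool))
    (w : α × Bool) (hred : IsReduced (w :: L)) (hJ : ∀ p ∈ w :: L, p.1 ∈ J) :
    mk (w :: L) * g ∈ startsWith w := by
  induction L generalizing w with
  | nil =>
    rw [mk_mul_mem_iff]
    intro h
    exact hg ⟨w.1, hJ w (by simp), _, h⟩
  | cons w' L ih =>
    have h1 := (isReduced_cons_cons.mp hred)
    have h2 := ih w' h1.2 (fun p hp => hJ p (List.mem_cons_of_mem _ hp))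
    have h3 : mk (w :: w' :: L) * g = mk [w] * (mk (w' :: L) * g) := by
      rw [← mul_assoc, mul_mk]; rfl
    rw [h3, mk_mul_mem_iff]
    intro h4
    have h5 := sw_unique h2 h4
    subst h5
    have := h1.1 rfl
    simp at this

theorem closure_mul_mem {J : Set α} {μ : FreeGroup α}
    (hμ : μ ∈ Subgroup.closure (FreeGroup.of '' J)) (hμ1 : μ ≠ 1) {g : FreeGroup α}
    (hg : g ∉ YJ J) : μ * g ∈ YJ J := by
  have hl := letters_mem hμ
  cases hw : μ.toWord with
  | nil => exact absurd (toWord_eq_nil_iff.mp hw) hμ1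
  | cons w L =>
    have hred : IsReduced (w :: L) := hw ▸ isReduced_toWord
    have hmk : μ = mk (w :: L) := by rw [← hw, mk_toWord]
    rw [hw] at hl
    have := list_mul_mem hg L w hred hl
    rw [← hmk] at this
    exact ⟨w.1, hl w (by simp), w.2, this⟩

end Free

/-! ## Coordinate projections -/

section Proj

variable {X : Type*}

open Classical in
theorem memlp_ind (S : Set X) (f : L2 X) : Memℓp (fun x => if x ∈ S then f x else (0 : ℂ)) 2 := by
  have h := lp.memℓp f
  rw [memℓp_gen_iff (by norm_num)] at h ⊢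
  refine Summable.of_nonneg_of_le (fun x => by positivity) (fun x => ?_) h
  by_cases hx : x ∈ S
  · rw [if_pos hx]
  · rw [if_neg hx, norm_zero]
    simp

open Classical in
/-- coordinate projection -/
noncomputable def pr (S : Set X) : L2 X →L[ℂ] L2 X :=
  LinearMap.mkContinuous
    { toFun := fun f => ⟨fun x => if x ∈ S then f x else (0 : ℂ), memlp_ind S f⟩
      map_add' := fun f g => by
        ext x
        by_cases hx : x ∈ S <;> simp [hx]
      map_smul' := fun c f => by
        ext x
        by_cases hx : x ∈ S <;> simp [hx] } 1 (fun f => by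
      rw [one_mul, lp.norm_eq_tsum_rpow (by norm_num), lp.norm_eq_tsum_rpow (by norm_num)]
      refine Real.rpow_le_rpow (by positivity) ?_ (by norm_num)
      have h := lp.memℓp f
      have h' := memlp_ind S f
      rw [memℓp_gen_iff (by norm_num)] at h h'
      refine Summable.tsum_le_tsum (fun x => ?_) h' h
      show ‖(if x ∈ S then f x else (0 : ℂ))‖ ^ _ ≤ _
      by_cases hx : x ∈ S
      · rw [if_pos hx]
      · rw [if_neg hx, norm_zero]
        simp)

open Classical in
theorem pr_apply (S : Set X) (f : L2 X) (x : X) : pr S f x = if x ∈ S then f x else 0 := rfl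

theorem pr_mul (S T : Set X) : pr S * pr T = pr (S ∩ T) := by
  ext f x
  show pr S (pr T f) x = _
  rw [pr_apply, pr_apply, pr_apply]
  by_cases h1 : x ∈ S <;> by_cases h2 : x ∈ T <;> simp [h1, h2]

theorem pr_empty : pr (∅ : Set X) = 0 := by
  ext f x
  rw [pr_apply]
  simp

theorem pr_univ : pr (Set.univ : Set X) = 1 := by
  ext f x
  rw [pr_apply]
  simp

theorem pr_compl (S : Set X) : pr Sᶜ = 1 - pr S := by
  ext f x
  show pr Sᶜ f x = (f - pr S f) x
  rw [pr_apply]
  show _ = f x - pr S f x
  rw [pr_apply]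
  by_cases h1 : x ∈ S <;> simp [h1]

theorem pr_union {S T : Set X} (h : Disjoint S T) : pr (S ∪ T) = pr S + pr T := by
  ext f x
  show pr (S ∪ T) f x = pr S f x + pr T f x
  rw [pr_apply, pr_apply, pr_apply]
  by_cases h1 : x ∈ S
  · have h2 : x ∉ T := Set.disjoint_left.mp h h1
    simp [h1, h2]
  · by_cases h2 : x ∈ T <;> simp [h1, h2]

theorem star_pr (S : Set X) : star (pr S) = pr S := by
  rw [ContinuousLinearMap.star_eq_adjoint]
  symm
  rw [ContinuousLinearMap.eq_adjoint_iff]
  intro x y
  rw [lp.inner_eq_tsum, lp.inner_eq_tsum]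
  congr 1
  ext k
  rw [pr_apply, pr_apply]
  by_cases h1 : k ∈ S <;> simp [h1]

theorem norm_pr_le (S : Set X) : ‖pr S‖ ≤ 1 :=
  LinearMap.mkContinuous_norm_le _ zero_le_one _

theorem pr_self (S : Set X) : pr S * pr S = pr S := by rw [pr_mul, Set.inter_self]

theorem pr_mul_zero {S T : Set X} (h : Disjoint S T) : pr S * pr T = 0 := by
  rw [pr_mul, Set.disjoint_iff_inter_eq_empty.mp h, pr_empty]

theorem pr_mul_sub {S T : Set X} (h : S ⊆ T) : pr S * pr T = pr S := by
  rw [pr_mul, Set.inter_eq_left.mpr h]

theorem pr_mul_sub' {S T : Set X} (h : S ⊆ T) : pr T * pr S = pr S := by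
  rw [pr_mul, Set.inter_eq_right.mpr h]

end Proj

section ProjG

variable {G : Type*} [Group G]

theorem lam_pr (g : G) (S : Set G) : lam g * pr S = pr {h | g⁻¹ * h ∈ S} * lam g := by
  ext f h
  show lam g (pr S f) h = pr {h | g⁻¹ * h ∈ S} (lam g f) h
  rw [lam_apply, pr_apply, pr_apply, lam_apply]
  rfl

/-- the closed star subalgebra generated by a subgroup -/
noncomputable def CrS (Λ : Subgroup G) : StarSubalgebra ℂ (BL G) :=
  (StarAlgebra.adjoin ℂ ((lam : G → BL G) '' Λ)).topologicalClosure

theorem isClosed_CrS (Λ : Subgroup G) : IsClosed (CrS Λ : Set (BL G)) :=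
  StarSubalgebra.isClosed_topologicalClosure _

instance (Λ : Subgroup G) : Fact (IsClosed (CrS Λ : Set (BL G))) := ⟨isClosed_CrS Λ⟩

theorem lam_mem_CrS {Λ : Subgroup G} {g : G} (hg : g ∈ Λ) : lam g ∈ CrS Λ :=
  StarSubalgebra.le_topologicalClosure _ (StarAlgebra.subset_adjoin ℂ _ ⟨g, hg, rfl⟩)

theorem CrS_mono {Λ Λ' : Subgroup G} (h : Λ ≤ Λ') : CrS Λ ≤ CrS Λ' :=
  StarSubalgebra.topologicalClosure_mono (StarAlgebra.adjoin_mono (Set.image_mono h))

theorem CrS_le_Cr (Λ : Subgroup G) : CrS Λ ≤ Cr G :=
  StarSubalgebra.topologicalClosure_mono (StarAlgebra.adjoin_mono (Set.image_subset_range _ _))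

/-- induction principle -/
theorem CrS_induction (Λ : Subgroup G) (p : BL G → Prop) (hcl : IsClosed {y | p y})
    (hadd : ∀ x y, p x → p y → p (x + y)) (hsmul : ∀ (c : ℂ) x, p x → p (c • x))
    (hlam : ∀ μ ∈ Λ, p (lam μ)) : ∀ y ∈ CrS Λ, p y := by
  have h0 : p 0 := by
    have := hsmul 0 _ (hlam 1 Λ.one_mem)
    rwa [zero_smul] at this
  have hspan : ∀ y ∈ Submodule.span ℂ ((lam : G → BL G) '' Λ), p y := by
    intro y hy
    induction hy using Submodule.span_induction with
    | mem x hx => obtain ⟨μ, hμ, rfl⟩ := hx; exact hlam μ hμ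
    | zero => exact h0
    | add x y _ _ hx hy => exact hadd x y hx hy
    | smul c x _ hx => exact hsmul c x hx
  have hadj : ∀ y ∈ StarAlgebra.adjoin ℂ ((lam : G → BL G) '' Λ), p y := by
    intro y hy
    apply hspan
    have h1 : y ∈ Algebra.adjoin ℂ (((lam : G → BL G) '' Λ) ∪ star ((lam : G → BL G) '' Λ)) := hy
    have h2 : star ((lam : G → BL G) '' Λ) = (lam : G → BL G) '' Λ := by
      ext z
      rw [Set.mem_star]
      constructor
      · rintro ⟨g, hg, hgz⟩
        refine ⟨g⁻¹, Λ.inv_mem hg, ?_⟩
        rw [← star_lam, hgz, star_star]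
      · rintro ⟨g, hg, rfl⟩
        exact ⟨g⁻¹, Λ.inv_mem hg, (star_lam g).symm⟩
    rw [h2, Set.union_self, ← Subalgebra.mem_toSubmodule, Algebra.adjoin_eq_span] at h1
    have h3 : (Submonoid.closure ((lam : G → BL G) '' Λ) : Set (BL G)) ⊆ (lam : G → BL G) '' Λ := by
      intro z hz
      induction hz using Submonoid.closure_induction with
      | mem x hx => exact hx
      | one => exact ⟨1, Λ.one_mem, lam_one⟩
      | mul x y _ _ hx hy =>
        obtain ⟨g, hg, rfl⟩ := hx
        obtain ⟨g', hg', rfl⟩ := hy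
        exact ⟨g * g', Λ.mul_mem hg hg', lam_mul g g'⟩
    exact Submodule.span_mono h3 h1
  intro y hy
  have hy' : y ∈ closure ((StarAlgebra.adjoin ℂ ((lam : G → BL G) '' Λ)) : Set (BL G)) := hy
  exact closure_minimal (fun z hz => hadj z hz) hcl hy'

/-- the canonical trace -/
noncomputable def tau (y : BL G) : ℂ := inner ℂ (dl (1 : G)) (y (dl 1))

theorem continuous_tau : Continuous (tau : BL G → ℂ) := by
  unfold tau
  fun_prop

theorem tau_add (x y : BL G) : tau (x + y) = tau x + tau y := by
  simp [tau]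

theorem tau_smul (c : ℂ) (x : BL G) : tau (c • x) = c * tau x := by
  simp [tau]

open Classical in
theorem tau_lam (g : G) : tau (lam g) = if g = 1 then 1 else 0 := by
  rw [tau, lam_dl, mul_one]
  rw [dl, lp.inner_single_left, dl_apply]
  by_cases h : g = 1
  · subst h; simp
  · rw [if_neg h, if_neg (fun h' => h h'.symm)]; simp

theorem tau_one : tau (1 : BL G) = 1 := by
  rw [← lam_one, tau_lam, if_pos rfl]

theorem tau_star (y : BL G) : tau (star y) = star (tau y) := by
  rw [tau, tau, ContinuousLinearMap.star_eq_adjoint, ContinuousLinearMap.adjoint_inner_right]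
  exact (inner_conj_symm _ _).symm

theorem tau_comm (Λ : Subgroup G) {x y : BL G} (hx : x ∈ CrS Λ) (hy : y ∈ CrS Λ) :
    tau (x * y) = tau (y * x) := by
  revert x
  apply CrS_induction Λ (fun x => tau (x * y) = tau (y * x))
  · exact isClosed_eq (continuous_tau.comp (continuous_id.mul continuous_const))
      (continuous_tau.comp (continuous_const.mul continuous_id))
  · intro a b ha hb
    rw [add_mul, mul_add, tau_add, tau_add, ha, hb]
  · intro c a ha
    rw [smul_mul_assoc, mul_smul_comm, tau_smul, tau_smul, ha]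
  · intro μ hμ
    revert y
    apply CrS_induction Λ (fun y => tau (lam μ * y) = tau (y * lam μ))
    · exact isClosed_eq (continuous_tau.comp (continuous_const.mul continuous_id))
        (continuous_tau.comp (continuous_id.mul continuous_const))
    · intro a b ha hb
      rw [add_mul, mul_add, tau_add, tau_add, ha, hb]
    · intro c a ha
      rw [smul_mul_assoc, mul_smul_comm, tau_smul, tau_smul, ha]
    · intro ν hν
      rw [← lam_mul, ← lam_mul, tau_lam, tau_lam]
      congr 1
      rw [eq_iff_iff, mul_eq_one_iff_eq_inv, mul_eq_one_iff_inv_eq]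
      exact eq_comm

/-- compression identity -/
theorem pr_mul_pr (Λ : Subgroup G) (S : Set G)
    (hS : ∀ μ ∈ Λ, μ ≠ 1 → ∀ g ∈ S, μ * g ∉ S) {y : BL G} (hy : y ∈ CrS Λ) :
    pr S * y * pr S = tau y • pr S := by
  revert y
  apply CrS_induction Λ (fun y => pr S * y * pr S = tau y • pr S)
  · exact isClosed_eq ((continuous_const.mul continuous_id).mul continuous_const)
      (continuous_tau.smul continuous_const)
  · intro a b ha hb
    rw [mul_add, add_mul, ha, hb, tau_add, add_smul]
  · intro c a ha
    rw [mul_smul_comm, smul_mul_assoc, ha, tau_smul, mul_smul]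
  · intro μ hμ
    by_cases h1 : μ = 1
    · subst h1
      rw [lam_one, mul_one, pr_self, tau_one, one_smul]
    · rw [mul_assoc, lam_pr, ← mul_assoc, tau_lam, if_neg h1, zero_smul, pr_mul_zero, zero_mul]
      rw [Set.disjoint_left]
      intro g hg hg'
      exact hS μ hμ h1 _ hg' (by rwa [mul_inv_cancel_left])

end ProjG

end TFS.SubA
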