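import Pool.Agent.Lib_helper52.TFS.A1

/-!
# Subtask A, part 2: the averaging bound (K)
-/

set_option autoImplicit false

open scoped ENNReal

namespace TFS.SubA

section Abs

variable {E : Type*} [CStarAlgebra E]

theorem norm_proj_le {P : E} (hP : star P = P) (hPP : P * P = P) : ‖P‖ ≤ 1 := by
  have h : ‖P‖ * ‖P‖ = ‖P‖ := by
    have := CStarRing.norm_star_mul_self (x := P)
    rw [hP, hPP] at this
    exact this.symm
  by_contra hcon
  push Not at hcon
  nlinarith

theorem norm_sum_le_of_orth (N : ℕ) (a : ℕ → E) (M : ℝ) (hM0 : 0 ≤ M)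
    (horth : ∀ i j, i ≠ j → star (a i) * a j = 0) (hM : ∀ j, ‖a j‖ ≤ M) :
    ‖∑ j ∈ Finset.range N, a j‖ ≤ Real.sqrt N * M := by
  have h1 : star (∑ j ∈ Finset.range N, a j) * (∑ j ∈ Finset.range N, a j) =
      ∑ j ∈ Finset.range N, star (a j) * a j := by
    rw [star_sum, Finset.sum_mul]
    refine Finset.sum_congr rfl fun i hi => ?_
    rw [Finset.mul_sum, Finset.sum_eq_single i]
    · intro j _ hj; exact horth i j (Ne.symm hj)
    · intro h; exact absurd hi h
  have h2 : ‖∑ j ∈ Finset.range N, a j‖ ^ 2 ≤ N * M ^ 2 := by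
    rw [pow_two, ← CStarRing.norm_star_mul_self, h1]
    refine (norm_sum_le _ _).trans ?_
    calc ∑ j ∈ Finset.range N, ‖star (a j) * a j‖ ≤ ∑ _j ∈ Finset.range N, M ^ 2 := by
          refine Finset.sum_le_sum fun j _ => ?_
          rw [CStarRing.norm_star_mul_self, ← pow_two]
          exact pow_le_pow_left₀ (norm_nonneg _) (hM j) 2
      _ = N * M ^ 2 := by simp
  have h3 : ‖∑ j ∈ Finset.range N, a j‖ ≤ Real.sqrt (N * M ^ 2) := Real.le_sqrt_of_sq_le h2
  rwa [Real.sqrt_mul (Nat.cast_nonneg N), Real.sqrt_sq hM0] at h3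

theorem norm_sum_le_of_proj (N : ℕ) (P T : ℕ → E) (hP : ∀ j, star (P j) = P j)
    (hPP : ∀ j, P j * P j = P j) (hort : ∀ i j, i ≠ j → P i * P j = 0)
    (hT : ∀ j, (1 - P j) * T j * (1 - P j) = 0) (M : ℝ) (hM0 : 0 ≤ M) (hM : ∀ j, ‖T j‖ ≤ M) :
    ‖∑ j ∈ Finset.range N, T j‖ ≤ 2 * Real.sqrt N * M := by
  have hQ : ∀ j, star (1 - P j) = 1 - P j := fun j => by rw [star_sub, star_one, hP]
  have hQQ : ∀ j, (1 - P j) * (1 - P j) = 1 - P j := fun j => by
    rw [mul_sub, mul_one, sub_mul, one_mul, hPP, sub_self, sub_zero]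
  have h1 : ∑ j ∈ Finset.range N, T j = (∑ j ∈ Finset.range N, P j * T j) +
      star (∑ j ∈ Finset.range N, star ((1 - P j) * T j * P j)) := by
    rw [star_sum, ← Finset.sum_add_distrib]
    refine Finset.sum_congr rfl fun j _ => ?_
    rw [star_star]
    have h2 : (1 - P j) * T j = (1 - P j) * T j * P j + (1 - P j) * T j * (1 - P j) := by
      rw [← mul_add]; simp
    rw [hT, add_zero] at h2
    rw [← h2, ← add_mul]; simp
  have hb1 : ‖∑ j ∈ Finset.range N, P j * T j‖ ≤ Real.sqrt N * M := by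
    refine norm_sum_le_of_orth N _ M hM0 (fun i j hij => ?_) (fun j => ?_)
    · rw [star_mul, hP, mul_assoc, ← mul_assoc (P i), hort i j hij, zero_mul, mul_zero]
    · calc ‖P j * T j‖ ≤ ‖P j‖ * ‖T j‖ := norm_mul_le _ _
        _ ≤ 1 * M := mul_le_mul (norm_proj_le (hP j) (hPP j)) (hM j) (norm_nonneg _) zero_le_one
        _ = M := one_mul _
  have hb2 : ‖∑ j ∈ Finset.range N, star ((1 - P j) * T j * P j)‖ ≤ Real.sqrt N * M := by
    refine norm_sum_le_of_orth N _ M hM0 (fun i j hij => ?_) (fun j => ?_)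
    · rw [star_star, star_mul, hP]
      calc (1 - P i) * T i * P i * (P j * star ((1 - P j) * T j))
          = (1 - P i) * T i * (P i * P j) * star ((1 - P j) * T j) := by noncomm_ring
        _ = 0 := by rw [hort i j hij]; simp
    · rw [norm_star]
      calc ‖(1 - P j) * T j * P j‖ ≤ ‖(1 - P j)‖ * ‖T j‖ * ‖P j‖ :=
            (norm_mul_le _ _).trans (mul_le_mul_of_nonneg_right (norm_mul_le _ _) (norm_nonneg _))
        _ ≤ 1 * M * 1 := by
            refine mul_le_mul ?_ (norm_proj_le (hP j) (hPP j)) (norm_nonneg _) (by positivity)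
            exact mul_le_mul (norm_proj_le (hQ j) (hQQ j)) (hM j) (norm_nonneg _) zero_le_one
        _ = M := by ring
  rw [h1]
  refine (norm_add_le _ _).trans ?_
  rw [norm_star]
  linarith

theorem star_pow_mul_pow {X : E} (h1 : star X * X = 1) (n : ℕ) : star X ^ n * X ^ n = 1 := by
  induction n with
  | zero => simp
  | succ n ih =>
    rw [pow_succ, pow_succ' X]
    calc star X ^ n * star X * (X * X ^ n) = star X ^ n * (star X * X) * X ^ n := by noncomm_ring
      _ = 1 := by rw [h1, mul_one, ih]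

theorem pow_mul_star_pow {X : E} (h2 : X * star X = 1) (n : ℕ) : X ^ n * star X ^ n = 1 := by
  have := star_pow_mul_pow (X := star X) (by rwa [star_star]) n
  rwa [star_star] at this

theorem norm_le_one_of_star_mul {X : E} (h1 : star X * X = 1) : ‖X‖ ≤ 1 := by
  have h := CStarRing.norm_star_mul_self (x := X)
  rw [h1] at h
  have h2 : ‖(1 : E)‖ ≤ 1 := norm_proj_le (star_one E) (one_mul 1)
  by_contra hcon
  push Not at hcon
  nlinarith

/-- abstract form of (K) -/
theorem K_abs (X P h : E) (h1 : star X * X = 1) (h2 : X * star X = 1) (hP : star P = P)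
    (hPP : P * P = P) (hK : ∀ m : ℕ, P * star X ^ (m + 1) * P = 0)
    (hh : (1 - P) * h * (1 - P) = 0) (N : ℕ) :
    ‖∑ j ∈ Finset.range N, star X ^ (j + 1) * h * X ^ (j + 1)‖ ≤ 2 * Real.sqrt N * ‖h‖ := by
  have hX := star_pow_mul_pow h1
  have hX' := pow_mul_star_pow h2
  have key : ∀ i m : ℕ, (star X ^ (i + 1) * P * X ^ (i + 1)) *
      (star X ^ (i + 1 + (m + 1)) * P * X ^ (i + 1 + (m + 1))) = 0 := by
    intro i m
    rw [pow_add (star X) (i + 1) (m + 1)]
    calc (star X ^ (i + 1) * P * X ^ (i + 1)) *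
        (star X ^ (i + 1) * star X ^ (m + 1) * P * X ^ (i + 1 + (m + 1)))
        = star X ^ (i + 1) * P * (X ^ (i + 1) * star X ^ (i + 1)) * star X ^ (m + 1) * P *
          X ^ (i + 1 + (m + 1)) := by noncomm_ring
      _ = star X ^ (i + 1) * (P * star X ^ (m + 1) * P) * X ^ (i + 1 + (m + 1)) := by
          rw [hX', mul_one]; noncomm_ring
      _ = 0 := by rw [hK]; simp
  have hstar : ∀ j : ℕ, star (star X ^ (j + 1) * P * X ^ (j + 1)) =
      star X ^ (j + 1) * P * X ^ (j + 1) := by
    intro j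
    rw [star_mul, star_mul, hP, star_pow, star_pow, star_star, mul_assoc]
  refine norm_sum_le_of_proj N (fun j => star X ^ (j + 1) * P * X ^ (j + 1)) _ hstar ?_ ?_ ?_ _
    (norm_nonneg _) ?_
  · intro j
    calc (star X ^ (j + 1) * P * X ^ (j + 1)) * (star X ^ (j + 1) * P * X ^ (j + 1))
        = star X ^ (j + 1) * P * (X ^ (j + 1) * star X ^ (j + 1)) * P * X ^ (j + 1) := by
          noncomm_ring
      _ = star X ^ (j + 1) * (P * P) * X ^ (j + 1) := by rw [hX', mul_one]; noncomm_ring
      _ = _ := by rw [hPP]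
  · intro i j hij
    rcases lt_or_gt_of_ne hij with h | h
    · obtain ⟨m, rfl⟩ : ∃ m, j = i + (m + 1) := ⟨j - i - 1, by omega⟩
      have := key i m
      rwa [show i + 1 + (m + 1) = i + (m + 1) + 1 by omega] at this
    · obtain ⟨m, rfl⟩ : ∃ m, i = j + (m + 1) := ⟨i - j - 1, by omega⟩
      have := key j m
      rw [show j + 1 + (m + 1) = j + (m + 1) + 1 by omega] at this
      have h3 := congrArg star this
      rw [star_mul, hstar, hstar, star_zero] at h3
      exact h3
  · intro j
    have e : 1 - star X ^ (j + 1) * P * X ^ (j + 1) = star X ^ (j + 1) * (1 - P) * X ^ (j + 1) := by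
      rw [mul_sub, sub_mul, mul_one, hX]
    rw [e]
    calc star X ^ (j + 1) * (1 - P) * X ^ (j + 1) * (star X ^ (j + 1) * h * X ^ (j + 1)) *
          (star X ^ (j + 1) * (1 - P) * X ^ (j + 1))
        = star X ^ (j + 1) * (1 - P) * (X ^ (j + 1) * star X ^ (j + 1)) * h *
          (X ^ (j + 1) * star X ^ (j + 1)) * (1 - P) * X ^ (j + 1) := by noncomm_ring
      _ = star X ^ (j + 1) * ((1 - P) * h * (1 - P)) * X ^ (j + 1) := by
          rw [hX', mul_one, mul_one]; noncomm_ring
      _ = 0 := by rw [hh]; simp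
  · intro j
    have hn : ∀ n : ℕ, ‖X ^ n‖ ≤ 1 := fun n => by
      refine norm_le_one_of_star_mul ?_
      rw [star_pow]; exact hX n
    have hn' : ∀ n : ℕ, ‖star X ^ n‖ ≤ 1 := fun n => by
      rw [← star_pow, norm_star]; exact hn n
    calc ‖star X ^ (j + 1) * h * X ^ (j + 1)‖ ≤ ‖star X ^ (j + 1)‖ * ‖h‖ * ‖X ^ (j + 1)‖ :=
          (norm_mul_le _ _).trans (mul_le_mul_of_nonneg_right (norm_mul_le _ _) (norm_nonneg _))
      _ ≤ 1 * ‖h‖ * 1 := by
          refine mul_le_mul ?_ (hn _) (norm_nonneg _) (by positivity)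
          exact mul_le_mul_of_nonneg_right (hn' _) (norm_nonneg _)
      _ = ‖h‖ := by ring

/-- semi-abstract form of (K): `t` unitary, `Qp, Qm` orthogonal projections, `Qu ≤ Qp` -/
theorem K_semi (t Qp Qm Qu c h : E) (B : Set E) (τ : E → ℂ)
    (ht1 : star t * t = 1) (ht2 : t * star t = 1)
    (hQp : star Qp = Qp) (hQpp : Qp * Qp = Qp) (hQm : star Qm = Qm) (hQmm : Qm * Qm = Qm)
    (hpm : Qp * Qm = 0) (hup : Qu * Qp = Qu) (_hum : Qu * Qm = 0)
    (hcomp : ∀ y ∈ B, (Qp + Qm) * y * (Qp + Qm) = τ y • (Qp + Qm))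
    (hshift : (1 - Qm) * star t = star t * Qu)
    (hc1 : star c * c = 1) (hc2 : c * star c = 1) (hcB : c ∈ B) (hscB : star c ∈ B)
    (hhB : h ∈ B) (hhc : h * star c ∈ B) (hch : c * h ∈ B) (hchc : c * h * star c ∈ B)
    (hτ : τ h = 0) (hτ2 : τ (c * h * star c) = 0) (N : ℕ) :
    ‖∑ j ∈ Finset.range N, star (t * c) ^ (j + 1) * h * (t * c) ^ (j + 1)‖ ≤
      2 * Real.sqrt N * ‖h‖ := by
  have hmp : Qm * Qp = 0 := by
    have := congrArg star hpm
    rwa [star_mul, hQp, hQm, star_zero] at this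
  have e1 : Qp * (Qp + Qm) = Qp := by rw [mul_add, hQpp, hpm, add_zero]
  have e2 : (Qp + Qm) * Qp = Qp := by rw [add_mul, hQpp, hmp, add_zero]
  have e3 : Qm * (Qp + Qm) = Qm := by rw [mul_add, hQmm, hmp, zero_add]
  have e4 : (Qp + Qm) * Qm = Qm := by rw [add_mul, hQmm, hpm, zero_add]
  have gen : ∀ U V : E, U * (Qp + Qm) = U → (Qp + Qm) * V = V → ∀ y ∈ B,
      U * y * V = τ y • (U * V) := by
    intro U V hU hV y hy
    calc U * y * V = U * (Qp + Qm) * y * ((Qp + Qm) * V) := by rw [hU, hV]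
      _ = U * ((Qp + Qm) * y * (Qp + Qm)) * V := by noncomm_ring
      _ = τ y • (U * (Qp + Qm) * V) := by
          rw [hcomp y hy, mul_smul_comm, smul_mul_assoc]
      _ = τ y • (U * V) := by rw [hU]
  -- compression pieces
  have cpp : ∀ y ∈ B, Qp * y * Qp = τ y • Qp := fun y hy => by
    rw [gen Qp Qp e1 e2 y hy, hQpp]
  have cpm : ∀ y ∈ B, Qp * y * Qm = 0 := fun y hy => by
    rw [gen Qp Qm e1 e4 y hy, hpm, smul_zero]
  have cmp : ∀ y ∈ B, Qm * y * Qp = 0 := fun y hy => by
    rw [gen Qm Qp e3 e2 y hy, hmp, smul_zero]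
  have cmm : ∀ y ∈ B, Qm * y * Qm = τ y • Qm := fun y hy => by
    rw [gen Qm Qm e3 e4 y hy, hQmm]
  set Q : E := Qp + star c * Qm * c with hQ
  have hpc : Qp * star c * Qm = 0 := cpm _ hscB
  have hcp : Qm * c * Qp = 0 := cmp _ hcB
  have hQstar : star Q = Q := by
    rw [hQ, star_add, hQp, star_mul, star_mul, star_star, hQm, mul_assoc]
  have hQQ : Q * Q = Q := by
    have : Q * Q = Qp * Qp + (Qp * star c * Qm) * c + star c * (Qm * c * Qp) +
        star c * (Qm * (c * star c) * Qm) * c := by rw [hQ]; noncomm_ring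
    rw [this, hQpp, hpc, hcp, hc2, mul_one, hQmm, zero_mul, mul_zero, add_zero, add_zero]
  have hQhQ : Q * h * Q = 0 := by
    have : Q * h * Q = Qp * h * Qp + (Qp * (h * star c) * Qm) * c + star c * (Qm * (c * h) * Qp) +
        star c * (Qm * (c * h * star c) * Qm) * c := by rw [hQ]; noncomm_ring
    rw [this, cpp h hhB, hτ, zero_smul, cpm _ hhc, cmp _ hch, cmm _ hchc, hτ2, zero_smul]
    simp
  have huc : Qu * star c * Qm = 0 := by
    calc Qu * star c * Qm = Qu * Qp * star c * Qm := by rw [hup]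
      _ = Qu * (Qp * star c * Qm) := by noncomm_ring
      _ = 0 := by rw [hpc, mul_zero]
  have hQuQ : Qu * Q = Qu := by
    have : Qu * Q = Qu * Qp + (Qu * star c * Qm) * c := by rw [hQ]; noncomm_ring
    rw [this, hup, huc, zero_mul, add_zero]
  set P : E := 1 - Q with hP
  have hQuP : Qu * P = 0 := by rw [hP, mul_sub, mul_one, hQuQ, sub_self]
  have f1 : star t * P = Qm * star t * P := by
    have h1 : (1 - Qm) * star t * P = 0 := by rw [hshift, mul_assoc, hQuP, mul_zero]
    have h2 : star t * P = (1 - Qm) * star t * P + Qm * star t * P := by noncomm_ring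
    rw [h1, zero_add] at h2
    exact h2
  have f2 : star t * (star c * Qm) = Qm * star t * star c * Qm := by
    have h1 : (1 - Qm) * star t * (star c * Qm) = 0 := by
      rw [hshift, mul_assoc, ← mul_assoc Qu, huc, mul_zero]
    have h2 : star t * (star c * Qm) = (1 - Qm) * star t * (star c * Qm) +
        Qm * star t * star c * Qm := by noncomm_ring
    rw [h1, zero_add] at h2
    exact h2
  have f3 : P * star c * Qm = 0 := by
    have : P * star c * Qm = star c * Qm - Qp * star c * Qm -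
        star c * (Qm * (c * star c) * Qm) := by rw [hP, hQ]; noncomm_ring
    rw [this, hpc, hc2, mul_one, hQmm, sub_zero, sub_self]
  have f4 : ∀ m : ℕ, ∃ Z : E, star (t * c) ^ (m + 1) * P = star c * Qm * Z := by
    intro m
    induction m with
    | zero =>
      refine ⟨star t * P, ?_⟩
      calc star (t * c) ^ (0 + 1) * P = star c * (star t * P) := by
            rw [zero_add, pow_one, star_mul, mul_assoc]
        _ = star c * (Qm * star t * P) := congrArg (fun z => star c * z) f1
        _ = star c * Qm * (star t * P) := by simp only [mul_assoc]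
    | succ m ih =>
      obtain ⟨Z, hZ⟩ := ih
      refine ⟨star t * star c * Qm * Z, ?_⟩
      rw [pow_succ', mul_assoc, hZ, star_mul]
      calc star c * star t * (star c * Qm * Z) = star c * (star t * (star c * Qm)) * Z := by
            noncomm_ring
        _ = _ := by rw [f2]; noncomm_ring
  have hX1 : star (t * c) * (t * c) = 1 := by
    rw [star_mul]
    calc star c * star t * (t * c) = star c * (star t * t) * c := by noncomm_ring
      _ = 1 := by rw [ht1, mul_one, hc1]
  have hX2 : (t * c) * star (t * c) = 1 := by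
    rw [star_mul]
    calc t * c * (star c * star t) = t * (c * star c) * star t := by noncomm_ring
      _ = 1 := by rw [hc2, mul_one, ht2]
  refine K_abs (t * c) P h hX1 hX2 ?_ ?_ ?_ ?_ N
  · rw [hP, star_sub, star_one, hQstar]
  · rw [hP, mul_sub, mul_one, sub_mul, one_mul, hQQ, sub_self, sub_zero]
  · intro m
    obtain ⟨Z, hZ⟩ := f4 m
    rw [mul_assoc, hZ, ← mul_assoc, ← mul_assoc, f3, zero_mul]
  · rw [hP, sub_sub_cancel]
    exact hQhQ

end Abs

section Concrete

open FreeGroup

/-- the free group on three generators -/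
abbrev F3 := FreeGroup (Fin 3)

/-- the subgroup generated by the last two generators -/
def Lam2 : Subgroup F3 := Subgroup.closure (FreeGroup.of '' ({1, 2} : Set (Fin 3)))

theorem mk_single_true (x : Fin 3) : (FreeGroup.mk [(x, true)] : F3) = FreeGroup.of x := rfl

theorem mk_single_false (x : Fin 3) : (FreeGroup.mk [(x, false)] : F3) = (FreeGroup.of x)⁻¹ := rfl

/-- `(1 - Q₋) t⁻¹ = t⁻¹ Q₊` -/
theorem shift_identity (x : Fin 3) :
    (1 - pr (startsWith (x, false))) * star (lam (FreeGroup.of x : F3)) =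
      star (lam (FreeGroup.of x : F3)) * pr (startsWith (x, true)) := by
  rw [star_lam, lam_pr, ← pr_compl]
  congr 2
  ext g
  show g ∉ startsWith (x, false) ↔ (FreeGroup.of x)⁻¹⁻¹ * g ∈ startsWith (x, true)
  rw [inv_inv]
  exact (mk_mul_mem_iff (x, true) g).symm

theorem K_conc (c h : BL F3) (hc : c ∈ CrS Lam2) (hc1 : star c * c = 1) (hc2 : c * star c = 1)
    (hh : h ∈ CrS Lam2) (hτ : tau h = 0) (N : ℕ) :
    ‖∑ j ∈ Finset.range N, star (lam (FreeGroup.of 0) * c) ^ (j + 1) * h *
      (lam (FreeGroup.of 0) * c) ^ (j + 1)‖ ≤ 2 * Real.sqrt N * ‖h‖ := by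
  have hdisj : Disjoint (({1} : Set F3) ∪ startsWith (0, true)) (startsWith (0, false)) := by
    rw [Set.disjoint_left]
    rintro g (hg | hg) hg'
    · rw [Set.mem_singleton_iff] at hg
      subst hg
      exact one_not_sw _ hg'
    · have := sw_unique hg hg'
      simp at this
  have hstarc : star c ∈ CrS Lam2 := star_mem hc
  refine K_semi (lam (FreeGroup.of 0)) (pr ({1} ∪ startsWith (0, true)))
    (pr (startsWith (0, false))) (pr (startsWith (0, true))) c h (CrS Lam2 : Set (BL F3)) tau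
    ?_ ?_ (star_pr _) (pr_self _) (star_pr _) (pr_self _) (pr_mul_zero hdisj)
    (pr_mul_sub Set.subset_union_right) ?_ ?_ (shift_identity 0) hc1 hc2 hc hstarc hh
    (mul_mem hh hstarc) (mul_mem hc hh) (mul_mem (mul_mem hc hh) hstarc) hτ ?_ N
  · rw [star_lam, ← lam_mul, inv_mul_cancel, lam_one]
  · rw [star_lam, ← lam_mul, mul_inv_cancel, lam_one]
  · refine pr_mul_zero (hdisj.mono_left Set.subset_union_right)
  · intro y hy
    rw [← pr_union hdisj]
    refine pr_mul_pr Lam2 _ ?_ hy
    intro μ hμ hμ1 g hg hg'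
    have hg1 : g ∉ YJ ({1, 2} : Set (Fin 3)) := by
      rintro ⟨x, hx, e, hgx⟩
      rcases hg with (hg | hg) | hg
      · rw [Set.mem_singleton_iff] at hg
        subst hg
        exact one_not_sw _ hgx
      · have := sw_unique hg hgx
        simp only [Prod.mk.injEq] at this
        rw [← this.1] at hx
        simp at hx
      · have := sw_unique hg hgx
        simp only [Prod.mk.injEq] at this
        rw [← this.1] at hx
        simp at hx
    obtain ⟨x, hx, e, hgx⟩ := closure_mul_mem hμ hμ1 hg1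
    rcases hg' with (hg | hg) | hg
    · rw [Set.mem_singleton_iff] at hg
      rw [hg] at hgx
      exact one_not_sw _ hgx
    · have := sw_unique hg hgx
      simp only [Prod.mk.injEq] at this
      rw [← this.1] at hx
      simp at hx
    · have := sw_unique hg hgx
      simp only [Prod.mk.injEq] at this
      rw [← this.1] at hx
      simp at hx
  · rw [mul_assoc, tau_comm Lam2 hc (mul_mem hh hstarc), mul_assoc, hc1, mul_one, hτ]

end Concrete

end TFS.SubA
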