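import Pool.Agent.Lib_helper52.TFS.A2

/-!
# Subtask A, part 3: approximate unitary equivalence of `t c` and `t c exp (i h)`
-/

set_option autoImplicit false

open scoped ENNReal

namespace TFS.SubA

section Abs

open NormedSpace

variable {E : Type*} [CStarAlgebra E]

theorem exp_sub_bound (x : E) (hx : ‖x‖ ≤ 1) : ‖exp x - 1 - x‖ ≤ ‖x‖ ^ 2 := by
  have hs : Summable (fun n : ℕ => ((n.factorial : ℂ)⁻¹) • x ^ n) := expSeries_summable' (𝕂 := ℂ) x
  have h1 : exp x = ∑' n : ℕ, ((n.factorial : ℂ)⁻¹) • x ^ n := by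
    rw [exp_eq_tsum ℂ]
  have h2 := hs.sum_add_tsum_nat_add 2
  rw [← h1] at h2
  have h3 : exp x - 1 - x = ∑' n : ℕ, (((n + 2).factorial : ℂ)⁻¹) • x ^ (n + 2) := by
    rw [← h2]
    simp only [Finset.sum_range_succ, Finset.sum_range_zero]
    simp
    abel
  rw [h3]
  refine tsum_of_norm_bounded (hasSum_geometric_two' (‖x‖ ^ 2)) fun n => ?_
  rw [norm_smul, norm_inv, Complex.norm_natCast]
  have h4 : (2 : ℝ) ^ (n + 1) ≤ ((n + 2).factorial : ℝ) := by
    have : 2 ^ (n + 1) ≤ (n + 2).factorial := by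
      induction n with
      | zero => decide
      | succ n ih =>
        rw [pow_succ, Nat.factorial_succ (n + 2), mul_comm]
        exact Nat.mul_le_mul (by omega) ih
    exact_mod_cast this
  have h5 : ‖x ^ (n + 2)‖ ≤ ‖x‖ ^ 2 := by
    calc ‖x ^ (n + 2)‖ ≤ ‖x‖ ^ (n + 2) := norm_pow_le' _ (by omega)
      _ = ‖x‖ ^ n * ‖x‖ ^ 2 := pow_add _ _ _
      _ ≤ 1 * ‖x‖ ^ 2 := by
          refine mul_le_mul_of_nonneg_right (pow_le_one₀ (norm_nonneg _) hx) (by positivity)
      _ = ‖x‖ ^ 2 := one_mul _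
  have h6 : ((n + 2).factorial : ℝ)⁻¹ ≤ (2 ^ (n + 1))⁻¹ := inv_anti₀ (by positivity) h4
  calc ((n + 2).factorial : ℝ)⁻¹ * ‖x ^ (n + 2)‖ ≤ (2 ^ (n + 1))⁻¹ * ‖x‖ ^ 2 :=
        mul_le_mul h6 h5 (norm_nonneg _) (by positivity)
    _ = ‖x‖ ^ 2 / 2 / 2 ^ n := by rw [pow_succ]; field_simp

theorem exp_sub_one_bound (x : E) (hx : ‖x‖ ≤ 1) : ‖exp x - 1‖ ≤ 2 * ‖x‖ := by
  have h := exp_sub_bound x hx
  have h1 : exp x - 1 = (exp x - 1 - x) + x := by abel
  rw [h1]
  have h2 := norm_add_le (exp x - 1 - x) x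
  have h3 : ‖x‖ ^ 2 ≤ ‖x‖ := by
    rw [pow_two]; exact mul_le_of_le_one_left (norm_nonneg _) hx
  linarith

theorem exp_prod_bound (a b c : E) (ha : ‖a‖ ≤ 1) (hb : ‖b‖ ≤ 1) (hc : ‖c‖ ≤ 1) :
    ‖exp a - exp b * exp c‖ ≤ ‖a - b - c‖ + (‖a‖ ^ 2 + ‖b‖ ^ 2 + ‖c‖ ^ 2 + 4 * ‖b‖ * ‖c‖) := by
  have e : exp a - exp b * exp c = (a - b - c) + (exp a - 1 - a) - (exp b - 1 - b) -
      (exp c - 1 - c) - (exp b - 1) * (exp c - 1) := by noncomm_ring
  rw [e]
  have h1 := exp_sub_bound a ha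
  have h2 := exp_sub_bound b hb
  have h3 := exp_sub_bound c hc
  have h4 : ‖(exp b - 1) * (exp c - 1)‖ ≤ (2 * ‖b‖) * (2 * ‖c‖) :=
    (norm_mul_le _ _).trans (mul_le_mul (exp_sub_one_bound b hb) (exp_sub_one_bound c hc)
      (norm_nonneg _) (by positivity))
  have h5 := norm_sub_le ((a - b - c) + (exp a - 1 - a) - (exp b - 1 - b) - (exp c - 1 - c))
    ((exp b - 1) * (exp c - 1))
  have h6 := norm_sub_le ((a - b - c) + (exp a - 1 - a) - (exp b - 1 - b)) (exp c - 1 - c)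
  have h7 := norm_sub_le ((a - b - c) + (exp a - 1 - a)) (exp b - 1 - b)
  have h8 := norm_add_le (a - b - c) (exp a - 1 - a)
  linarith

theorem exp_unitary_conj (X y : E) (h1 : star X * X = 1) (h2 : X * star X = 1) :
    exp (star X * y * X) = star X * exp y * X := by
  let +nondep : NormedAlgebra ℚ E := .restrictScalars ℚ ℂ E
  exact exp_units_conj (⟨star X, X, h1, h2⟩ : Eˣ) y

theorem star_exp_I (k : E) (hk : star k = k) (ε : ℝ) :
    star (exp (((ε : ℂ) * Complex.I) • k)) = exp (-(((ε : ℂ) * Complex.I) • k)) := by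
  rw [star_exp, star_smul, hk, ← neg_smul]
  congr 2
  simp

theorem exp_I_star_mul (k : E) (hk : star k = k) (ε : ℝ) :
    star (exp (((ε : ℂ) * Complex.I) • k)) * exp (((ε : ℂ) * Complex.I) • k) = 1 := by
  let +nondep : NormedAlgebra ℚ E := .restrictScalars ℚ ℂ E
  rw [star_exp_I k hk, ← exp_add_of_commute (Commute.neg_left (Commute.refl _)), neg_add_cancel,
    exp_zero]

theorem exp_I_mul_star (k : E) (hk : star k = k) (ε : ℝ) :
    exp (((ε : ℂ) * Complex.I) • k) * star (exp (((ε : ℂ) * Complex.I) • k)) = 1 := by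
  let +nondep : NormedAlgebra ℚ E := .restrictScalars ℚ ℂ E
  rw [star_exp_I k hk, ← exp_add_of_commute (Commute.neg_right (Commute.refl _)), add_neg_cancel,
    exp_zero]

theorem exp_scalar (h : E) (r ε : ℝ) :
    Complex.exp (-((ε : ℂ) * Complex.I * r)) • exp (((ε : ℂ) * Complex.I) • h) =
      exp (((ε : ℂ) * Complex.I) • (h - (r : ℂ) • (1 : E))) := by
  let +nondep : NormedAlgebra ℚ E := .restrictScalars ℚ ℂ E
  have e1 : ((ε : ℂ) * Complex.I) • (h - (r : ℂ) • (1 : E)) =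
      algebraMap ℂ E (-((ε : ℂ) * Complex.I * r)) + ((ε : ℂ) * Complex.I) • h := by
    rw [Algebra.algebraMap_eq_smul_one, smul_sub, smul_smul, neg_smul]
    abel
  rw [e1, exp_add_of_commute (Algebra.commutes _ _), ← algebraMap_exp_comm,
    ← Complex.exp_eq_exp_ℂ, Algebra.smul_def]

theorem step_bound (X k h : E) (h1 : star X * X = 1) (h2 : X * star X = 1) (hk : star k = k)
    (r κ : ℝ) (hD : ‖star X * k * X - (h - (r : ℂ) • (1 : E)) - k‖ ≤ κ) (ε : ℝ) (hε : 0 ≤ ε)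
    (hεk : ε * ‖k‖ ≤ 1) (hεh : ε * ‖h - (r : ℂ) • (1 : E)‖ ≤ 1) :
    ‖exp (((ε : ℂ) * Complex.I) • k) * X * star (exp (((ε : ℂ) * Complex.I) • k)) -
      Complex.exp (-((ε : ℂ) * Complex.I * r)) • (X * exp (((ε : ℂ) * Complex.I) • h))‖ ≤
      ε * κ + ε ^ 2 * (2 * ‖k‖ ^ 2 + ‖h - (r : ℂ) • (1 : E)‖ ^ 2 +
        4 * ‖h - (r : ℂ) • (1 : E)‖ * ‖k‖) := by
  set w : ℂ := (ε : ℂ) * Complex.I with hw
  set h0 : E := h - (r : ℂ) • (1 : E) with hh0
  set V : E := exp (w • k) with hV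
  have hV1 : star V * V = 1 := exp_I_star_mul k hk ε
  have hV2 : V * star V = 1 := exp_I_mul_star k hk ε
  have hwn : ‖w‖ = ε := by rw [hw]; simp [abs_of_nonneg hε]
  have e1 : Complex.exp (-(w * r)) • (X * exp (w • h)) = X * exp (w • h0) := by
    rw [← mul_smul_comm, exp_scalar h r ε]
  have e2 : exp (w • (star X * k * X)) = star X * V * X := by
    rw [hV, ← exp_unitary_conj X _ h1 h2]
    congr 1
    simp only [mul_smul_comm, smul_mul_assoc]
  have e3 : V * X * star V - X * exp (w • h0) =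
      X * (exp (w • (star X * k * X)) - exp (w • h0) * exp (w • k)) * star V := by
    rw [e2, mul_sub, sub_mul]
    congr 1
    · calc V * X * star V = (X * star X) * V * X * star V := by rw [h2, one_mul]
        _ = _ := by simp only [mul_assoc]
    · calc X * exp (w • h0) = X * exp (w • h0) * (V * star V) := by rw [hV2, mul_one]
        _ = _ := by simp only [mul_assoc, hV]
  rw [e1, e3]
  have hn1 : ‖X‖ ≤ 1 := norm_le_one_of_star_mul h1
  have hn2 : ‖star V‖ ≤ 1 := by rw [norm_star]; exact norm_le_one_of_star_mul hV1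
  have hn3 : ‖star X * k * X‖ ≤ ‖k‖ := by
    calc ‖star X * k * X‖ ≤ ‖star X‖ * ‖k‖ * ‖X‖ :=
          (norm_mul_le _ _).trans (mul_le_mul_of_nonneg_right (norm_mul_le _ _) (norm_nonneg _))
      _ ≤ 1 * ‖k‖ * 1 := by
          refine mul_le_mul ?_ hn1 (norm_nonneg _) (by positivity)
          refine mul_le_mul_of_nonneg_right ?_ (norm_nonneg _)
          rw [norm_star]; exact hn1
      _ = ‖k‖ := by ring
  have hb := exp_prod_bound (w • (star X * k * X)) (w • h0) (w • k)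
    (by rw [norm_smul, hwn]; exact (mul_le_mul_of_nonneg_left hn3 hε).trans hεk)
    (by rw [norm_smul, hwn]; exact hεh) (by rw [norm_smul, hwn]; exact hεk)
  have e4 : w • (star X * k * X) - w • h0 - w • k = w • (star X * k * X - h0 - k) := by
    rw [← smul_sub, ← smul_sub]
  rw [e4, norm_smul, norm_smul, norm_smul, norm_smul, hwn] at hb
  have hm : ‖X * (exp (w • (star X * k * X)) - exp (w • h0) * exp (w • k)) * star V‖ ≤
      ‖exp (w • (star X * k * X)) - exp (w • h0) * exp (w • k)‖ := by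
    calc _ ≤ ‖X‖ * ‖exp (w • (star X * k * X)) - exp (w • h0) * exp (w • k)‖ * ‖star V‖ :=
          (norm_mul_le _ _).trans (mul_le_mul_of_nonneg_right (norm_mul_le _ _) (norm_nonneg _))
      _ ≤ 1 * ‖exp (w • (star X * k * X)) - exp (w • h0) * exp (w • k)‖ * 1 := by
          refine mul_le_mul ?_ hn2 (norm_nonneg _) (by positivity)
          exact mul_le_mul_of_nonneg_right hn1 (norm_nonneg _)
      _ = _ := by ring
  have hk2 : (ε * ‖star X * k * X‖) ^ 2 ≤ ε ^ 2 * ‖k‖ ^ 2 := by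
    rw [mul_pow]
    exact mul_le_mul_of_nonneg_left (pow_le_pow_left₀ (norm_nonneg _) hn3 2) (by positivity)
  have hD' : ε * ‖star X * k * X - h0 - k‖ ≤ ε * κ := mul_le_mul_of_nonneg_left hD hε
  nlinarith [hm, hb, hk2, hD']

/-- the averaging element -/
noncomputable def kel (X h : E) (N : ℕ) : E :=
  -∑ j ∈ Finset.range N, ((1 - (j : ℝ) / N : ℝ) : ℂ) • (star X ^ j * h * X ^ j)

theorem kel_star (X h : E) (N : ℕ) (hh : star h = h) : star (kel X h N) = kel X h N := by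
  rw [kel, star_neg, star_sum]
  congr 1
  refine Finset.sum_congr rfl fun j _ => ?_
  rw [star_smul, star_mul, star_mul, hh, star_pow, star_pow, star_star, mul_assoc]
  simp

theorem kel_norm (X h : E) (N : ℕ) (h1 : star X * X = 1) : ‖kel X h N‖ ≤ N * ‖h‖ := by
  rw [kel, norm_neg]
  have hX := star_pow_mul_pow h1
  have hn : ∀ n : ℕ, ‖X ^ n‖ ≤ 1 := fun n => by
    refine norm_le_one_of_star_mul ?_
    rw [star_pow]; exact hX n
  have hn' : ∀ n : ℕ, ‖star X ^ n‖ ≤ 1 := fun n => by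
    rw [← star_pow, norm_star]; exact hn n
  refine (norm_sum_le _ _).trans ?_
  calc ∑ j ∈ Finset.range N, ‖((1 - (j : ℝ) / N : ℝ) : ℂ) • (star X ^ j * h * X ^ j)‖
      ≤ ∑ _j ∈ Finset.range N, ‖h‖ := by
        refine Finset.sum_le_sum fun j hj => ?_
        rw [Finset.mem_range] at hj
        have hN : (0 : ℝ) < N := by
          have : 0 < N := by omega
          exact_mod_cast this
        have hj' : (j : ℝ) / N ≤ 1 := by
          rw [div_le_one hN]; exact_mod_cast hj.le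
        have hj0 : 0 ≤ (j : ℝ) / N := by positivity
        rw [norm_smul, Complex.norm_real, Real.norm_eq_abs, abs_of_nonneg (by linarith)]
        have h2 : ‖star X ^ j * h * X ^ j‖ ≤ ‖h‖ := by
          calc ‖star X ^ j * h * X ^ j‖ ≤ ‖star X ^ j‖ * ‖h‖ * ‖X ^ j‖ :=
                (norm_mul_le _ _).trans (mul_le_mul_of_nonneg_right (norm_mul_le _ _)
                  (norm_nonneg _))
            _ ≤ 1 * ‖h‖ * 1 := by
                refine mul_le_mul ?_ (hn _) (norm_nonneg _) (by positivity)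
                exact mul_le_mul_of_nonneg_right (hn' _) (norm_nonneg _)
            _ = ‖h‖ := by ring
        calc (1 - (j : ℝ) / N) * ‖star X ^ j * h * X ^ j‖ ≤ 1 * ‖h‖ :=
              mul_le_mul (by linarith) h2 (norm_nonneg _) zero_le_one
          _ = ‖h‖ := one_mul _
    _ = N * ‖h‖ := by simp

theorem kel_mem {S : StarSubalgebra ℂ E} {X h : E} (hX : X ∈ S) (hh : h ∈ S) (N : ℕ) :
    kel X h N ∈ S := by
  rw [kel]
  refine neg_mem (sum_mem fun j _ => ?_)
  exact SMulMemClass.smul_mem _ (mul_mem (mul_mem (pow_mem (star_mem hX) _) hh) (pow_mem hX _))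

theorem kel_identity (X h : E) (N : ℕ) (hN : 0 < N) :
    star X * kel X h N * X - h - kel X h N =
      -((N : ℂ)⁻¹ • ∑ j ∈ Finset.range N, star X ^ (j + 1) * h * X ^ (j + 1)) := by
  have hN' : (N : ℂ) ≠ 0 := by exact_mod_cast hN.ne'
  have e1 : star X * kel X h N * X =
      -∑ j ∈ Finset.range N, ((1 - (j : ℝ) / N : ℝ) : ℂ) • (star X ^ (j + 1) * h * X ^ (j + 1)) := by
    rw [kel, mul_neg, neg_mul, Finset.mul_sum, Finset.sum_mul]
    congr 1
    refine Finset.sum_congr rfl fun j _ => ?_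
    rw [mul_smul_comm, smul_mul_assoc, pow_succ' (star X), pow_succ X]
    simp only [mul_assoc]
  have e2 : kel X h N = -(∑ j ∈ Finset.range N,
      ((1 - ((j + 1 : ℕ) : ℝ) / N : ℝ) : ℂ) • (star X ^ (j + 1) * h * X ^ (j + 1)) + h) := by
    have h3 : ∑ j ∈ Finset.range (N + 1), ((1 - (j : ℝ) / N : ℝ) : ℂ) •
        (star X ^ j * h * X ^ j) =
        ∑ j ∈ Finset.range N, ((1 - (j : ℝ) / N : ℝ) : ℂ) • (star X ^ j * h * X ^ j) := by
      rw [Finset.sum_range_succ]
      have : ((1 - (N : ℝ) / N : ℝ) : ℂ) = 0 := by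
        rw [div_self (by exact_mod_cast hN.ne' : (N : ℝ) ≠ 0)]; simp
      rw [this, zero_smul, add_zero]
    rw [kel, ← h3, Finset.sum_range_succ']
    simp
  rw [e1, e2]
  rw [Finset.smul_sum, ← Finset.sum_neg_distrib, ← Finset.sum_neg_distrib, sub_neg_eq_add]
  rw [show ∀ a b : E, a - h + (b + h) = a + b from fun a b => by abel, ← Finset.sum_add_distrib]
  refine Finset.sum_congr rfl fun j _ => ?_
  rw [← neg_smul, ← neg_smul, ← add_smul]
  congr 1
  push_cast
  field_simp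
  ring

/-- approximate unitary equivalence up to scalars -/
def AU (S : StarSubalgebra ℂ E) (X Y : E) (δ : ℝ) : Prop :=
  ∃ u : unitary E, (u : E) ∈ S ∧ ∃ z : ℂ, ‖z‖ = 1 ∧ ‖(u : E) * X * star (u : E) - z • Y‖ ≤ δ

theorem AU.refl (S : StarSubalgebra ℂ E) (X : E) : AU S X X 0 :=
  ⟨1, one_mem S, 1, by simp, by simp⟩

theorem AU.mono {S : StarSubalgebra ℂ E} {X Y : E} {δ δ' : ℝ} (h : AU S X Y δ) (hδ : δ ≤ δ') :
    AU S X Y δ' := by
  obtain ⟨u, hu, z, hz, hb⟩ := h
  exact ⟨u, hu, z, hz, hb.trans hδ⟩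

theorem unitary_conj_norm_le (u : unitary E) (y : E) : ‖(u : E) * y * star (u : E)‖ ≤ ‖y‖ := by
  have hu : ‖(u : E)‖ ≤ 1 := norm_le_one_of_star_mul (Unitary.coe_star_mul_self u)
  have hu' : ‖star (u : E)‖ ≤ 1 := by rwa [norm_star]
  calc ‖(u : E) * y * star (u : E)‖ ≤ ‖(u : E)‖ * ‖y‖ * ‖star (u : E)‖ :=
        (norm_mul_le _ _).trans (mul_le_mul_of_nonneg_right (norm_mul_le _ _) (norm_nonneg _))
    _ ≤ 1 * ‖y‖ * 1 := by
        refine mul_le_mul ?_ hu' (norm_nonneg _) (by positivity)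
        exact mul_le_mul_of_nonneg_right hu (norm_nonneg _)
    _ = ‖y‖ := by ring

theorem AU.trans {S : StarSubalgebra ℂ E} {X Y Z : E} {δ δ' : ℝ} (h : AU S X Y δ)
    (h' : AU S Y Z δ') : AU S X Z (δ + δ') := by
  obtain ⟨u, hu, z, hz, hb⟩ := h
  obtain ⟨v, hv, z', hz', hb'⟩ := h'
  refine ⟨v * u, mul_mem hv hu, z * z', by rw [norm_mul, hz, hz', one_mul], ?_⟩
  have e : ((v * u : unitary E) : E) * X * star ((v * u : unitary E) : E) - (z * z') • Z =
      (v : E) * ((u : E) * X * star (u : E) - z • Y) * star (v : E) +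
        z • ((v : E) * Y * star (v : E) - z' • Z) := by
    rw [mul_sub, sub_mul, smul_sub, smul_smul, mul_smul_comm, smul_mul_assoc]
    have : ((v * u : unitary E) : E) * X * star ((v * u : unitary E) : E) =
        (v : E) * ((u : E) * X * star (u : E)) * star (v : E) := by
      rw [Submonoid.coe_mul, star_mul]; simp only [mul_assoc]
    rw [this]; abel
  rw [e]
  refine (norm_add_le _ _).trans (add_le_add ((unitary_conj_norm_le v _).trans hb) ?_)
  rw [norm_smul, hz, one_mul]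
  exact hb'

/-- one step -/
theorem AU_step (S : StarSubalgebra ℂ E) (hS : IsClosed (S : Set E)) (X h : E) (hX : X ∈ S)
    (hhS : h ∈ S) (h1 : star X * X = 1) (h2 : X * star X = 1) (hh : star h = h) (r : ℝ)
    (N : ℕ) (hN : 0 < N) (H : ℝ) (hH : ‖h - (r : ℂ) • (1 : E)‖ ≤ H)
    (hK : ‖∑ j ∈ Finset.range N, star X ^ (j + 1) * (h - (r : ℂ) • (1 : E)) * X ^ (j + 1)‖ ≤
      2 * Real.sqrt N * H) (ε : ℝ) (hε : 0 ≤ ε) (hεH : ε * (N * H) ≤ 1) :
    AU S X (X * exp (((ε : ℂ) * Complex.I) • h))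
      (ε * (2 * H / Real.sqrt N) + ε ^ 2 * (7 * (N * H) ^ 2)) := by
  set h0 : E := h - (r : ℂ) • (1 : E) with hh0
  have hH0 : 0 ≤ H := (norm_nonneg _).trans hH
  have hN1 : (1 : ℝ) ≤ N := by exact_mod_cast hN
  have hh0star : star h0 = h0 := by
    rw [hh0, star_sub, star_smul, star_one, hh]; simp
  have hh0S : h0 ∈ S := sub_mem hhS (SMulMemClass.smul_mem _ (one_mem S))
  set k : E := kel X h0 N with hk
  have hkstar : star k = k := kel_star X h0 N hh0star
  have hkn : ‖k‖ ≤ N * H :=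
    (kel_norm X h0 N h1).trans (mul_le_mul_of_nonneg_left hH (Nat.cast_nonneg N))
  have hkS : k ∈ S := kel_mem hX hh0S N
  have hHN : H ≤ N * H := by nlinarith
  have hD : ‖star X * k * X - h0 - k‖ ≤ 2 * H / Real.sqrt N := by
    rw [hk, kel_identity X h0 N hN, norm_neg, norm_smul, norm_inv, Complex.norm_natCast]
    have hs : Real.sqrt N * Real.sqrt N = N := Real.mul_self_sqrt (Nat.cast_nonneg N)
    have hs0 : 0 < Real.sqrt N := Real.sqrt_pos.mpr (by linarith)
    calc (N : ℝ)⁻¹ * ‖∑ j ∈ Finset.range N, star X ^ (j + 1) * h0 * X ^ (j + 1)‖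
        ≤ (N : ℝ)⁻¹ * (2 * Real.sqrt N * H) := mul_le_mul_of_nonneg_left hK (by positivity)
      _ = 2 * H / Real.sqrt N := by
          rw [eq_div_iff hs0.ne']
          have hN0 : (N : ℝ) ≠ 0 := by linarith
          have e5 : (N : ℝ)⁻¹ * (2 * Real.sqrt N * H) * Real.sqrt N =
              (N : ℝ)⁻¹ * (Real.sqrt N * Real.sqrt N) * (2 * H) := by ring
          rw [e5, hs, inv_mul_cancel₀ hN0, one_mul]
  have hb := step_bound X k h h1 h2 hkstar r _ hD ε hε
    ((mul_le_mul_of_nonneg_left hkn hε).trans hεH)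
    ((mul_le_mul_of_nonneg_left (hH.trans hHN) hε).trans hεH)
  refine ⟨⟨exp (((ε : ℂ) * Complex.I) • k), ?_⟩, ?_, Complex.exp (-((ε : ℂ) * Complex.I * r)),
    ?_, hb.trans ?_⟩
  · rw [Unitary.mem_iff]
    exact ⟨exp_I_star_mul k hkstar ε, exp_I_mul_star k hkstar ε⟩
  · let +nondep : NormedAlgebra ℚ E := .restrictScalars ℚ ℂ E
    exact exp_mem (R := ℂ) hS (SMulMemClass.smul_mem _ hkS)
  · rw [Complex.norm_exp]; simp
  · have h3 : ‖k‖ ^ 2 ≤ (N * H) ^ 2 := pow_le_pow_left₀ (norm_nonneg _) hkn 2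
    have h4 : ‖h0‖ ^ 2 ≤ (N * H) ^ 2 := pow_le_pow_left₀ (norm_nonneg _) (hH.trans hHN) 2
    have h5 : ‖h0‖ * ‖k‖ ≤ (N * H) * (N * H) :=
      mul_le_mul (hH.trans hHN) hkn (norm_nonneg _) (by positivity)
    have h6 : 2 * ‖k‖ ^ 2 + ‖h0‖ ^ 2 + 4 * ‖h0‖ * ‖k‖ ≤ 7 * (N * H) ^ 2 := by nlinarith
    have := mul_le_mul_of_nonneg_left h6 (sq_nonneg ε)
    linarith

/-- the chain of steps -/
theorem AU_exp (S B : StarSubalgebra ℂ E) (hS : IsClosed (S : Set E)) (hB : IsClosed (B : Set E))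
    (hBS : B ≤ S) (t : E) (ht : t ∈ S) (ht1 : star t * t = 1) (ht2 : t * star t = 1)
    (h : E) (hhB : h ∈ B) (hh : star h = h) (r : ℝ)
    (hK : ∀ c : E, c ∈ B → star c * c = 1 → c * star c = 1 → ∀ N : ℕ,
      ‖∑ j ∈ Finset.range N, star (t * c) ^ (j + 1) * (h - (r : ℂ) • (1 : E)) *
        (t * c) ^ (j + 1)‖ ≤ 2 * Real.sqrt N * ‖h - (r : ℂ) • (1 : E)‖)
    (c : E) (hc : c ∈ B) (hc1 : star c * c = 1) (hc2 : c * star c = 1) (δ : ℝ) (hδ : 0 < δ) :
    AU S (t * c) (t * c * exp (Complex.I • h)) δ := by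
  set H : ℝ := ‖h - (r : ℂ) • (1 : E)‖ with hH
  have hH0 : 0 ≤ H := norm_nonneg _
  -- choose N
  obtain ⟨N, hN0, hN⟩ : ∃ N : ℕ, 0 < N ∧ 2 * H / Real.sqrt N ≤ δ / 2 := by
    obtain ⟨N, hN⟩ := exists_nat_gt ((4 * H / δ) ^ 2 + 1)
    have hN1 : (1 : ℝ) < N := by nlinarith [sq_nonneg (4 * H / δ)]
    have hNpos : 0 < N := by
      have : (0 : ℝ) < N := by linarith
      exact_mod_cast this
    refine ⟨N, hNpos, ?_⟩
    have hs0 : 0 < Real.sqrt N := Real.sqrt_pos.mpr (by linarith)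
    rw [div_le_iff₀ hs0]
    have h3 : 4 * H / δ ≤ Real.sqrt N := Real.le_sqrt_of_sq_le (by linarith)
    rw [div_le_iff₀ hδ] at h3
    linarith
  -- choose M
  obtain ⟨M, hM0, hM1, hM2⟩ : ∃ M : ℕ, 0 < M ∧ (M : ℝ)⁻¹ * (N * H) ≤ 1 ∧
      (M : ℝ)⁻¹ * (7 * (N * H) ^ 2) ≤ δ / 2 := by
    obtain ⟨M, hM⟩ := exists_nat_gt (N * H + 14 * (N * H) ^ 2 / δ + 1)
    have hNH : 0 ≤ (N : ℝ) * H := by positivity
    have hq : 0 ≤ 14 * ((N : ℝ) * H) ^ 2 / δ := by positivity
    have hMpos : (0 : ℝ) < M := by linarith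
    refine ⟨M, by exact_mod_cast hMpos, ?_, ?_⟩
    · rw [inv_mul_le_iff₀ hMpos]; linarith
    · rw [inv_mul_le_iff₀ hMpos]
      have h4 : 14 * ((N : ℝ) * H) ^ 2 / δ ≤ M := by linarith
      rw [div_le_iff₀ hδ] at h4
      linarith
  have hMpos : (0 : ℝ) < M := by exact_mod_cast hM0
  set ε : ℝ := (M : ℝ)⁻¹ with hε
  have hε0 : 0 ≤ ε := by positivity
  have hstep : ∀ j : ℕ, AU S (t * c) (t * c * exp ((((j * ε : ℝ) : ℂ) * Complex.I) • h))
      (j * (ε * (2 * H / Real.sqrt N) + ε ^ 2 * (7 * (N * H) ^ 2))) := by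
    intro j
    induction j with
    | zero => simpa using AU.refl S (t * c)
    | succ j ih =>
      set cj : E := c * exp ((((j * ε : ℝ) : ℂ) * Complex.I) • h) with hcj
      have hcjB : cj ∈ B := by
        let +nondep : NormedAlgebra ℚ E := .restrictScalars ℚ ℂ E
        exact mul_mem hc (exp_mem (R := ℂ) hB (SMulMemClass.smul_mem _ hhB))
      have g1 := exp_I_star_mul h hh (j * ε)
      have g2 := exp_I_mul_star h hh (j * ε)
      have hcj1 : star cj * cj = 1 := by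
        rw [hcj, star_mul]
        calc _ = star (exp ((((j * ε : ℝ) : ℂ) * Complex.I) • h)) * (star c * c) *
              exp ((((j * ε : ℝ) : ℂ) * Complex.I) • h) := by simp only [mul_assoc]
          _ = 1 := by rw [hc1, mul_one, g1]
      have hcj2 : cj * star cj = 1 := by
        rw [hcj, star_mul]
        calc _ = c * (exp ((((j * ε : ℝ) : ℂ) * Complex.I) • h) *
              star (exp ((((j * ε : ℝ) : ℂ) * Complex.I) • h))) * star c := by
              simp only [mul_assoc]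
          _ = 1 := by rw [g2, mul_one, hc2]
      have hX1 : star (t * cj) * (t * cj) = 1 := by
        rw [star_mul]
        calc star cj * star t * (t * cj) = star cj * (star t * t) * cj := by
              simp only [mul_assoc]
          _ = 1 := by rw [ht1, mul_one, hcj1]
      have hX2 : (t * cj) * star (t * cj) = 1 := by
        rw [star_mul]
        calc t * cj * (star cj * star t) = t * (cj * star cj) * star t := by
              simp only [mul_assoc]
          _ = 1 := by rw [hcj2, mul_one, ht2]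
      have hs := AU_step S hS (t * cj) h (mul_mem ht (hBS hcjB)) (hBS hhB) hX1 hX2 hh r N hN0 H
        le_rfl (hK cj hcjB hcj1 hcj2 N) ε hε0 hM1
      have e1 : t * cj = t * c * exp ((((j * ε : ℝ) : ℂ) * Complex.I) • h) := by
        rw [hcj, mul_assoc]
      have e2 : t * cj * exp (((ε : ℂ) * Complex.I) • h) =
          t * c * exp (((((j + 1 : ℕ) * ε : ℝ) : ℂ) * Complex.I) • h) := by
        let +nondep : NormedAlgebra ℚ E := .restrictScalars ℚ ℂ E
        rw [e1, mul_assoc, ← exp_add_of_commute]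
        · congr 2
          rw [← add_smul]
          congr 1
          push_cast
          ring
        · exact ((Commute.refl h).smul_left _).smul_right _
      rw [e2, e1] at hs
      have := ih.trans hs
      refine this.mono (le_of_eq ?_)
      push_cast
      ring
  have hfin := hstep M
  have hMε : (M : ℝ) * ε = 1 := mul_inv_cancel₀ hMpos.ne'
  rw [hMε] at hfin
  have e3 : (((1 : ℝ) : ℂ) * Complex.I) • h = Complex.I • h := by simp
  rw [e3] at hfin
  refine hfin.mono ?_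
  have e4 : (M : ℝ) * (ε * (2 * H / Real.sqrt N) + ε ^ 2 * (7 * (N * H) ^ 2)) =
      ((M : ℝ) * ε) * (2 * H / Real.sqrt N) + ((M : ℝ) * ε) * (ε * (7 * (N * H) ^ 2)) := by ring
  rw [e4, hMε, one_mul, one_mul]
  linarith

end Abs

end TFS.SubA
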