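import Pool.Agent.Lib_helper52.TFS.A3

/-!
# Subtask A, part 4: the commutator is connected to the identity
-/

set_option autoImplicit false

open scoped ENNReal

namespace TFS.SubA

section Abs

open NormedSpace

variable {D : Type*} [CStarAlgebra D]

/-- the rotation estimate -/
theorem rot_bound (b φ ψ : D) (hb1 : star b * b = 1) (_hb2 : b * star b = 1) (hφ : star φ = φ)
    (hφn : ‖φ‖ ≤ 1) (hψ : ‖ψ‖ ≤ 2) (β γ : ℝ) (hβ : ‖φ * ψ - ψ‖ ≤ β)
    (hγ : ‖φ * b * φ‖ ≤ γ) :
    ‖exp ((Real.pi / 2 : ℝ) • (-(b * φ - φ * star b))) * (b * ψ) - ψ‖ ≤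
      Real.pi * (2 * β + 2 * γ) := by
  have hb : ‖b‖ ≤ 1 := norm_le_one_of_star_mul hb1
  have hb' : ‖star b‖ ≤ 1 := by rwa [norm_star]
  have hγ0 : 0 ≤ γ := (norm_nonneg _).trans hγ
  have hβ0 : 0 ≤ β := (norm_nonneg _).trans hβ
  set Z : D := b * φ - φ * star b with hZ
  have hγ' : ‖φ * star b * φ‖ ≤ γ := by
    have : star (φ * b * φ) = φ * star b * φ := by
      rw [star_mul, star_mul, hφ, mul_assoc]
    rw [← this, norm_star]; exact hγ
  have g1 : ‖φ * star b * ψ‖ ≤ 2 * γ + β := by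
    have e : φ * star b * ψ = (φ * star b * φ) * ψ - φ * star b * (φ * ψ - ψ) := by noncomm_ring
    rw [e]
    refine (norm_sub_le _ _).trans ?_
    have h1 : ‖φ * star b * φ * ψ‖ ≤ γ * 2 :=
      (norm_mul_le _ _).trans (mul_le_mul hγ' hψ (norm_nonneg _) hγ0)
    have h2 : ‖φ * star b * (φ * ψ - ψ)‖ ≤ 1 * 1 * β := by
      refine (norm_mul_le _ _).trans (mul_le_mul ?_ hβ (norm_nonneg _) (by norm_num))
      exact (norm_mul_le _ _).trans (mul_le_mul hφn hb' (norm_nonneg _) zero_le_one)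
    linarith
  have g2 : ‖φ * b * ψ‖ ≤ 2 * γ + β := by
    have e : φ * b * ψ = (φ * b * φ) * ψ - φ * b * (φ * ψ - ψ) := by noncomm_ring
    rw [e]
    refine (norm_sub_le _ _).trans ?_
    have h1 : ‖φ * b * φ * ψ‖ ≤ γ * 2 :=
      (norm_mul_le _ _).trans (mul_le_mul hγ hψ (norm_nonneg _) hγ0)
    have h2 : ‖φ * b * (φ * ψ - ψ)‖ ≤ 1 * 1 * β := by
      refine (norm_mul_le _ _).trans (mul_le_mul ?_ hβ (norm_nonneg _) (by norm_num))
      exact (norm_mul_le _ _).trans (mul_le_mul hφn hb (norm_nonneg _) zero_le_one)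
    linarith
  have k1 : ‖b * ψ - Z * ψ‖ ≤ 2 * β + 2 * γ := by
    have e : b * ψ - Z * ψ = φ * star b * ψ - b * (φ * ψ - ψ) := by rw [hZ]; noncomm_ring
    rw [e]
    refine (norm_sub_le _ _).trans ?_
    have h2 : ‖b * (φ * ψ - ψ)‖ ≤ 1 * β :=
      (norm_mul_le _ _).trans (mul_le_mul hb hβ (norm_nonneg _) zero_le_one)
    linarith
  have k2 : ‖ψ + Z * (b * ψ)‖ ≤ 2 * β + 2 * γ := by
    have e : ψ + Z * (b * ψ) = b * (φ * b * ψ) - (φ * ψ - ψ) := by
      have e1 : φ * star b * (b * ψ) = φ * ψ := by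
        calc φ * star b * (b * ψ) = φ * (star b * b) * ψ := by simp only [mul_assoc]
          _ = φ * ψ := by rw [hb1, mul_one]
      have e2 : Z * (b * ψ) = b * (φ * b * ψ) - φ * star b * (b * ψ) := by rw [hZ]; noncomm_ring
      rw [e2, e1]; abel
    rw [e]
    refine (norm_sub_le _ _).trans ?_
    have h2 : ‖b * (φ * b * ψ)‖ ≤ 1 * (2 * γ + β) :=
      (norm_mul_le _ _).trans (mul_le_mul hb g2 (norm_nonneg _) zero_le_one)
    linarith
  -- the path
  have hskew : star (-Z) = -(-Z) := by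
    rw [hZ, star_neg, star_sub, star_mul, star_mul, star_star, hφ]; abel
  have hVn : ∀ θ : ℝ, ‖exp (θ • (-Z))‖ ≤ 1 := by
    intro θ
    let +nondep : NormedAlgebra ℚ D := .restrictScalars ℚ ℂ D
    refine norm_le_one_of_star_mul ?_
    have : star (θ • (-Z)) = -(θ • (-Z)) := by
      rw [star_smul, hskew, smul_neg]; simp
    rw [star_exp, this, ← exp_add_of_commute (Commute.neg_left (Commute.refl _)), neg_add_cancel,
      exp_zero]
  set g : ℝ → D := fun θ => exp (θ • (-Z)) * (Real.cos θ • ψ + Real.sin θ • (b * ψ)) with hg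
  have hder : ∀ θ : ℝ, HasDerivAt g (exp (θ • (-Z)) *
      (Real.cos θ • (b * ψ - Z * ψ) - Real.sin θ • (ψ + Z * (b * ψ)))) θ := by
    intro θ
    have d1 : HasDerivAt (fun θ : ℝ => exp (θ • (-Z))) (exp (θ • (-Z)) * (-Z)) θ :=
      hasDerivAt_exp_smul_const (-Z) θ
    have d2 : HasDerivAt (fun θ : ℝ => Real.cos θ • ψ + Real.sin θ • (b * ψ))
        ((-Real.sin θ) • ψ + Real.cos θ • (b * ψ)) θ :=
      ((Real.hasDerivAt_cos θ).smul_const ψ).add ((Real.hasDerivAt_sin θ).smul_const (b * ψ))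
    refine (d1.mul d2).congr_deriv ?_
    rw [mul_assoc, ← mul_add]
    congr 1
    simp only [mul_add, neg_mul, mul_smul_comm]
    module
  have hbound : ∀ θ : ℝ, ‖exp (θ • (-Z)) *
      (Real.cos θ • (b * ψ - Z * ψ) - Real.sin θ • (ψ + Z * (b * ψ)))‖ ≤
      2 * (2 * β + 2 * γ) := by
    intro θ
    refine (norm_mul_le _ _).trans ?_
    have h1 : ‖Real.cos θ • (b * ψ - Z * ψ) - Real.sin θ • (ψ + Z * (b * ψ))‖ ≤
        2 * (2 * β + 2 * γ) := by
      refine (norm_sub_le _ _).trans ?_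
      rw [norm_smul, norm_smul, Real.norm_eq_abs, Real.norm_eq_abs]
      have a1 := mul_le_mul (Real.abs_cos_le_one θ) k1 (norm_nonneg _) zero_le_one
      have a2 := mul_le_mul (Real.abs_sin_le_one θ) k2 (norm_nonneg _) zero_le_one
      linarith
    calc _ ≤ 1 * (2 * (2 * β + 2 * γ)) := mul_le_mul (hVn θ) h1 (norm_nonneg _) zero_le_one
      _ = _ := one_mul _
  have hmv := norm_image_sub_le_of_norm_deriv_le_segment' (a := 0) (b := Real.pi / 2) (f := g)
    (C := 2 * (2 * β + 2 * γ)) (fun x _ => (hder x).hasDerivWithinAt) (fun x _ => hbound x)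
    (Real.pi / 2) (Set.right_mem_Icc.mpr (by positivity))
  have e1 : g (Real.pi / 2) = exp ((Real.pi / 2 : ℝ) • (-Z)) * (b * ψ) := by
    rw [hg]; simp
  have e2 : g 0 = ψ := by
    rw [hg]; simp
  rw [e1, e2] at hmv
  refine hmv.trans (le_of_eq ?_)
  ring

/-- connectedness of the commutator to the identity -/
theorem joined_comm (a b R : unitary D) (φ : D) (hφ : star φ = φ) (hφn : ‖φ‖ ≤ 1) (β γ : ℝ)
    (hRa : ‖star (R : D) * a - 1‖ < 2)
    (hβ : ‖φ * (star (R : D) - 1) - (star (R : D) - 1)‖ ≤ β)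
    (hβ' : ‖φ * ((R : D) - 1) - ((R : D) - 1)‖ ≤ β)
    (hγ : ‖φ * b * φ‖ ≤ γ) (hsmall : Real.pi * (2 * β + 2 * γ) < 1) :
    Joined (1 : unitary D) (a * b * a⁻¹ * b⁻¹) := by
  have hR1 : ‖(R : D)‖ ≤ 1 := norm_le_one_of_star_mul (Unitary.coe_star_mul_self R)
  have hone : ‖(1 : D)‖ ≤ 1 := norm_proj_le (star_one D) (one_mul 1)
  have hψn : ‖star (R : D) - 1‖ ≤ 2 := by
    refine (norm_sub_le _ _).trans ?_
    rw [norm_star]; linarith
  have hψn' : ‖(R : D) - 1‖ ≤ 2 := by
    refine (norm_sub_le _ _).trans ?_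
    linarith
  have hb1 : star (b : D) * b = 1 := Unitary.coe_star_mul_self b
  have hb2 : (b : D) * star (b : D) = 1 := Unitary.coe_mul_star_self b
  set Z : D := (b : D) * φ - φ * star (b : D) with hZ
  have hZstar : star Z = -Z := by
    rw [hZ, star_sub, star_mul, star_mul, star_star, hφ]; abel
  have r1 := rot_bound (b : D) φ (star (R : D) - 1) hb1 hb2 hφ hφn hψn β γ hβ hγ
  have r2 := rot_bound (b : D) φ ((R : D) - 1) hb1 hb2 hφ hφn hψn' β γ hβ' hγ
  rw [← hZ] at r1 r2
  -- the unitary U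
  have hx : IsSelfAdjoint (-(Complex.I) • ((Real.pi / 2 : ℝ) • Z)) := by
    rw [IsSelfAdjoint, star_smul, star_smul, hZstar]
    simp
  set x : selfAdjoint D := ⟨_, hx⟩ with hxdef
  set U : unitary D := selfAdjoint.expUnitary x with hU
  have hUj : Joined (1 : unitary D) U := selfAdjoint.joined_one_expUnitary x
  have hUval : (U : D) = exp ((Real.pi / 2 : ℝ) • Z) := by
    rw [hU, selfAdjoint.expUnitary_coe, hxdef]
    congr 1
    show Complex.I • (-(Complex.I) • ((Real.pi / 2 : ℝ) • Z)) = _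
    rw [smul_smul]
    simp
  have hUstar : star (U : D) = exp ((Real.pi / 2 : ℝ) • (-Z)) := by
    rw [hUval, star_exp, star_smul, hZstar]
    simp
  rw [← hUstar] at r1 r2
  have hU1 : star (U : D) * U = 1 := Unitary.coe_star_mul_self U
  have hUn : ‖(U : D)‖ ≤ 1 := norm_le_one_of_star_mul hU1
  have hbn : ‖star (b : D)‖ ≤ 1 := by rw [norm_star]; exact norm_le_one_of_star_mul hb1
  -- y = b R* b*
  have hmain : ‖star (U : D) * ((b : D) * star (R : D) * star (b : D)) * U - star (R : D)‖ < 2 := by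
    set ψ : D := star (R : D) - 1 with hψ
    have hRψ : star (R : D) = 1 + ψ := by rw [hψ]; abel
    have e0 : star ((R : D) - 1) = ψ := by rw [star_sub, star_one]
    have e1 : star (U : D) * ((b : D) * star (R : D) * star (b : D)) * U - star (R : D) =
        (star (U : D) * (b * ψ) - ψ) * (star (b : D) * U) +
          star (star (U : D) * (b * ((R : D) - 1)) - ((R : D) - 1)) := by
      have e2 : star (star (U : D) * (b * ((R : D) - 1)) - ((R : D) - 1)) =
          ψ * star (b : D) * U - ψ := by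
        rw [star_sub, star_mul, star_mul, star_star, e0]
      rw [e2, hRψ]
      have e3 : star (U : D) * ((b : D) * (1 + ψ) * star (b : D)) * U =
          star (U : D) * (b * star (b : D)) * U + star (U : D) * (b * ψ) * (star (b : D) * U) := by
        noncomm_ring
      rw [e3, hb2, mul_one, hU1]
      noncomm_ring
    rw [e1]
    have h1 : ‖(star (U : D) * (b * ψ) - ψ) * (star (b : D) * U)‖ ≤
        (Real.pi * (2 * β + 2 * γ)) * (1 * 1) := by
      refine (norm_mul_le _ _).trans (mul_le_mul r1 ?_ (norm_nonneg _)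
        ((norm_nonneg _).trans r1))
      exact (norm_mul_le _ _).trans (mul_le_mul hbn hUn (norm_nonneg _) zero_le_one)
    have h2 : ‖star (star (U : D) * (b * ((R : D) - 1)) - ((R : D) - 1))‖ ≤
        Real.pi * (2 * β + 2 * γ) := by rw [norm_star]; exact r2
    have := norm_add_le ((star (U : D) * (b * ψ) - ψ) * (star (b : D) * U))
      (star (star (U : D) * (b * ((R : D) - 1)) - ((R : D) - 1)))
    linarith
  -- joined relations
  have jRa : Joined R a := by
    have h1 : Joined (1 : unitary D) (star R * a) := by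
      refine Unitary.joined 1 _ ?_
      simpa using hRa
    have h2 := (Joined.refl R).mul h1
    have h3 : R * (star R * a) = a := by rw [← mul_assoc, Unitary.mul_star_self, one_mul]
    rwa [mul_one, h3] at h2
  have j1 : Joined (R * b * R⁻¹ * b⁻¹) (a * b * a⁻¹ * b⁻¹) := by
    exact ((jRa.mul (Joined.refl b)).mul jRa.inv).mul (Joined.refl b⁻¹)
  have j2 : Joined (b * R⁻¹ * b⁻¹) R⁻¹ := by
    have h1 : Joined (b * R⁻¹ * b⁻¹) (U⁻¹ * (b * R⁻¹ * b⁻¹) * U) := by
      have := (hUj.inv.mul (Joined.refl (b * R⁻¹ * b⁻¹))).mul hUj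
      simpa using this
    refine h1.trans (Unitary.joined _ _ ?_)
    rw [norm_sub_rev]
    exact hmain
  have j3 : Joined (1 : unitary D) (R * b * R⁻¹ * b⁻¹) := by
    have := ((Joined.refl R).mul j2).symm
    rw [mul_inv_cancel] at this
    have e : R * b * R⁻¹ * b⁻¹ = R * (b * R⁻¹ * b⁻¹) := by
      simp only [mul_assoc]
    rwa [e]
  exact j3.trans j1

end Abs

end TFS.SubA
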