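import Pool.Agent.Lib_helper52.TFS.A4

/-!
# Subtask A, part 5: functional calculus estimates
-/

set_option autoImplicit false

open scoped ENNReal

namespace TFS.SubA

section Abs

open NormedSpace

variable {D : Type*} [CStarAlgebra D]

/-- `(2 + R + R*) / 4` -/
noncomputable def Wel (R : D) : D := (4 : ℂ)⁻¹ • (2 + R + star R)

/-- `1 - W ^ M` -/
noncomputable def phiel (R : D) (M : ℕ) : D := 1 - Wel R ^ M

theorem star_Wel (R : D) : star (Wel R) = Wel R := by
  have h4 : star ((4 : ℂ)⁻¹) = (4 : ℂ)⁻¹ := by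
    rw [star_inv₀]; congr 1; exact star_ofNat 4
  rw [Wel, star_smul, star_add, star_add, star_star, star_ofNat, h4]
  congr 1; abel

theorem star_phiel (R : D) (M : ℕ) : star (phiel R M) = phiel R M := by
  rw [phiel, star_sub, star_one, star_pow, star_Wel]

theorem pow_bound (w : ℝ) (hw0 : 0 ≤ w) (hw1 : w ≤ 1) (n : ℕ) (hn : 0 < n) :
    w ^ n * (1 - w) ≤ 1 / n := by
  have hn' : (0 : ℝ) < n := by exact_mod_cast hn
  rw [le_div_iff₀ hn']
  have h1 : w ^ n * (1 - w) * n ≤ (∑ i ∈ Finset.range n, w ^ i) * (1 - w) := by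
    have : w ^ n * n ≤ ∑ i ∈ Finset.range n, w ^ i := by
      calc w ^ n * n = ∑ _i ∈ Finset.range n, w ^ n := by simp [mul_comm]
        _ ≤ ∑ i ∈ Finset.range n, w ^ i := Finset.sum_le_sum fun i hi =>
            pow_le_pow_of_le_one hw0 hw1 (Finset.mem_range.mp hi).le
    nlinarith
  have h2 : (∑ i ∈ Finset.range n, w ^ i) * (1 - w) = 1 - w ^ n := by
    have := geom_sum_mul w n
    linarith
  have h3 : 0 ≤ w ^ n := pow_nonneg hw0 n
  linarith

theorem circle_real (z : ℂ) (hz : ‖z‖ = 1) :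
    ((4 : ℂ)⁻¹ * (2 + z + star z)) = (((1 + z.re) / 2 : ℝ) : ℂ) ∧ 0 ≤ (1 + z.re) / 2 ∧
      (1 + z.re) / 2 ≤ 1 := by
  have h1 : |z.re| ≤ 1 := hz ▸ Complex.abs_re_le_norm z
  rw [abs_le] at h1
  refine ⟨?_, by linarith, by linarith⟩
  apply Complex.ext
  · simp; ring
  · simp

theorem Wel_cfc (R : D) (hR : R ∈ unitary D) :
    Wel R = cfc (fun z : ℂ => (4 : ℂ)⁻¹ * (2 + z + star z)) R := by
  have hn : IsStarNormal R := ⟨by
    have := Unitary.mem_iff.mp hR
    rw [Commute, SemiconjBy, this.1, this.2]⟩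
  rw [cfc_const_mul (4 : ℂ)⁻¹ (fun z : ℂ => 2 + z + star z) R,
    cfc_add R (fun z : ℂ => 2 + z) (fun z : ℂ => star z),
    cfc_const_add (2 : ℂ) (fun z : ℂ => z) R, cfc_id' ℂ R, cfc_star_id R, Wel, map_ofNat]

theorem W_pow_bound (R : D) (hR : R ∈ unitary D) (M : ℕ) (hM : 0 < M) (g : ℂ → ℂ)
    (hg : Continuous g) (hgn : ∀ z : ℂ, ‖z‖ = 1 → ‖g z‖ = ‖z - 1‖) :
    ‖Wel R ^ M * cfc g R‖ ≤ Real.sqrt (2 / M) := by
  have hn : IsStarNormal R := ⟨by
    have := Unitary.mem_iff.mp hR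
    rw [Commute, SemiconjBy, this.1, this.2]⟩
  rw [Wel_cfc R hR, ← cfc_pow (fun z : ℂ => (4 : ℂ)⁻¹ * (2 + z + star z)) M R, ← cfc_mul _ _ R]
  refine norm_cfc_le (Real.sqrt_nonneg _) fun z hz => ?_
  have hz1 : ‖z‖ = 1 := spectrum.norm_eq_one_of_unitary hR hz
  obtain ⟨h1, h2, h3⟩ := circle_real z hz1
  set w : ℝ := (1 + z.re) / 2 with hw
  rw [norm_mul, norm_pow, h1, Complex.norm_real, Real.norm_eq_abs, abs_of_nonneg h2, hgn z hz1]
  refine Real.le_sqrt_of_sq_le ?_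
  have h4 : ‖z - 1‖ ^ 2 = 4 * (1 - w) := by
    have h5 : ‖z‖ ^ 2 = z.re ^ 2 + z.im ^ 2 := by
      rw [Complex.sq_norm, Complex.normSq_apply]; ring
    rw [Complex.sq_norm, Complex.normSq_apply]
    rw [hz1] at h5
    simp only [Complex.sub_re, Complex.one_re, Complex.sub_im, Complex.one_im, sub_zero]
    rw [hw]
    nlinarith
  rw [mul_pow, h4, ← pow_mul]
  have h6 := pow_bound w h2 h3 (M * 2) (by omega)
  have hM' : (0 : ℝ) < M := by exact_mod_cast hM
  have h7 : (1 : ℝ) / ((M * 2 : ℕ) : ℝ) * 4 = 2 / M := by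
    push_cast; field_simp; norm_num
  rw [← h7]
  nlinarith

theorem phi_bound (R : D) (hR : R ∈ unitary D) (M : ℕ) (hM : 0 < M) :
    ‖phiel R M * (star R - 1) - (star R - 1)‖ ≤ Real.sqrt (2 / M) ∧
    ‖phiel R M * (R - 1) - (R - 1)‖ ≤ Real.sqrt (2 / M) ∧ ‖phiel R M‖ ≤ 1 ∧ ‖Wel R‖ ≤ 1 := by
  have hn : IsStarNormal R := ⟨by
    have := Unitary.mem_iff.mp hR
    rw [Commute, SemiconjBy, this.1, this.2]⟩
  refine ⟨?_, ?_, ?_, ?_⟩
  · have h := W_pow_bound R hR M hM (fun z => star z - 1) (by fun_prop) (fun z hz => by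
      rw [← norm_star (z - 1)]; simp)
    rw [cfc_sub (fun z : ℂ => star z) (fun _ : ℂ => (1 : ℂ)) R, cfc_const_one ℂ R,
      cfc_star_id R] at h
    have e : phiel R M * (star R - 1) - (star R - 1) = -(Wel R ^ M * (star R - 1)) := by
      rw [phiel]; noncomm_ring
    rw [e, norm_neg]; exact h
  · have h := W_pow_bound R hR M hM (fun z => z - 1) (by fun_prop) (fun z hz => rfl)
    rw [cfc_sub (fun z : ℂ => z) (fun _ : ℂ => (1 : ℂ)) R, cfc_const_one ℂ R, cfc_id' ℂ R] at h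
    have e : phiel R M * (R - 1) - (R - 1) = -(Wel R ^ M * (R - 1)) := by
      rw [phiel]; noncomm_ring
    rw [e, norm_neg]; exact h
  · have e : phiel R M = cfc (fun z : ℂ => 1 - ((4 : ℂ)⁻¹ * (2 + z + star z)) ^ M) R := by
      rw [cfc_sub (fun _ : ℂ => (1 : ℂ)) (fun z : ℂ => ((4 : ℂ)⁻¹ * (2 + z + star z)) ^ M) R,
        cfc_const_one ℂ R, cfc_pow (fun z : ℂ => (4 : ℂ)⁻¹ * (2 + z + star z)) M R, ← Wel_cfc R hR,
        phiel]
    rw [e]
    refine norm_cfc_le zero_le_one fun z hz => ?_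
    have hz1 : ‖z‖ = 1 := spectrum.norm_eq_one_of_unitary hR hz
    obtain ⟨h1, h2, h3⟩ := circle_real z hz1
    rw [h1]
    have h4 : (1 - (((1 + z.re) / 2 : ℝ) : ℂ) ^ M) = ((1 - ((1 + z.re) / 2) ^ M : ℝ) : ℂ) := by
      push_cast; ring
    rw [h4, Complex.norm_real, Real.norm_eq_abs, abs_of_nonneg]
    · have := pow_nonneg h2 M
      linarith
    · have := pow_le_one₀ h2 h3 (n := M)
      linarith
  · rw [Wel_cfc R hR]
    refine norm_cfc_le zero_le_one fun z hz => ?_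
    have hz1 : ‖z‖ = 1 := spectrum.norm_eq_one_of_unitary hR hz
    obtain ⟨h1, h2, h3⟩ := circle_real z hz1
    rw [h1, Complex.norm_real, Real.norm_eq_abs, abs_of_nonneg h2]
    exact h3

theorem one_add_ne_zero (r : ℝ) (hr0 : 0 ≤ r) (hr1 : r < 1) (z : ℂ) (hz : ‖z‖ = 1) :
    1 + (r : ℂ) * z ≠ 0 := by
  intro h
  have h1 : (r : ℂ) * z = -1 := by linear_combination h
  have h2 := congrArg norm h1
  rw [norm_mul, hz, mul_one, Complex.norm_real, Real.norm_eq_abs, abs_of_nonneg hr0, norm_neg,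
    norm_one] at h2
  linarith

/-- the Blaschke unitary -/
theorem R_exists (r : ℝ) (hr0 : 0 ≤ r) (hr1 : r < 1) (a : D) (ha : a ∈ unitary D) :
    ∃ R ∈ unitary D, ‖star R * a - 1‖ ≤ 2 * r ∧
      R = (a + (r : ℂ) • 1) * ∑' n : ℕ, (-((r : ℂ) • a)) ^ n := by
  have hn : IsStarNormal a := ⟨by
    have := Unitary.mem_iff.mp ha
    rw [Commute, SemiconjBy, this.1, this.2]⟩
  have hspec : ∀ z ∈ spectrum ℂ a, ‖z‖ = 1 := fun z hz => spectrum.norm_eq_one_of_unitary ha hz
  set f : ℂ → ℂ := fun z => (z + r) / (1 + r * z) with hf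
  have hfc : ContinuousOn f (spectrum ℂ a) := by
    refine ContinuousOn.div (by fun_prop) (by fun_prop) fun z hz => ?_
    exact one_add_ne_zero r hr0 hr1 z (hspec z hz)
  have hconj : ∀ z : ℂ, ‖z‖ = 1 → star z * z = 1 := fun z hz => by
    have := Complex.normSq_eq_conj_mul_self (z := z)
    rw [Complex.normSq_eq_norm_sq, hz] at this
    simpa using this.symm
  have hf1 : ∀ z ∈ spectrum ℂ a, star (f z) * f z = 1 := by
    intro z hz
    have hz1 := hspec z hz
    have h0 := one_add_ne_zero r hr0 hr1 z hz1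
    have h0' : star (1 + (r : ℂ) * z) ≠ 0 := star_ne_zero.mpr h0
    have hr : star (r : ℂ) = r := Complex.conj_ofReal r
    rw [hf]
    simp only [star_div₀]
    rw [div_mul_div_comm, div_eq_one_iff_eq (mul_ne_zero h0' h0)]
    simp only [star_add, star_mul', star_one, hr]
    linear_combination (1 - (r : ℂ) ^ 2) * hconj z hz1
  have hRu : cfc f a ∈ unitary D := (cfc_unitary_iff f a hn hfc).mpr hf1
  refine ⟨cfc f a, hRu, ?_, ?_⟩
  · have e : star (cfc f a) * a - 1 = cfc (fun z => star (f z) * z - 1) a := by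
      rw [cfc_sub (fun z : ℂ => star (f z) * z) (fun _ : ℂ => (1 : ℂ)) a
          (ContinuousOn.mul (continuous_star.comp_continuousOn hfc) continuousOn_id)
          continuousOn_const,
        cfc_const_one ℂ a, cfc_mul (fun z => star (f z)) (fun z => z) a
          (continuous_star.comp_continuousOn hfc) continuousOn_id, cfc_star f a, cfc_id' ℂ a]
    rw [e]
    refine norm_cfc_le (by positivity) fun z hz => ?_
    have hz1 := hspec z hz
    have h0 := one_add_ne_zero r hr0 hr1 z hz1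
    have h0' : star (1 + (r : ℂ) * z) ≠ 0 := star_ne_zero.mpr h0
    have hr : star (r : ℂ) = r := Complex.conj_ofReal r
    have e1 : star (f z) * z - 1 = (r : ℂ) * (z - star z) / star (1 + (r : ℂ) * z) := by
      rw [eq_div_iff h0', hf]
      simp only [star_div₀]
      rw [sub_mul, div_mul_eq_mul_div, div_mul_cancel₀ _ h0']
      simp only [star_add, star_mul', star_one, hr]
      linear_combination hconj z hz1
    rw [e1, norm_div, norm_mul, norm_star, Complex.norm_real, Real.norm_eq_abs,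
      abs_of_nonneg hr0, div_le_iff₀ (norm_pos_iff.mpr h0)]
    have h5 : ‖z‖ ^ 2 = z.re ^ 2 + z.im ^ 2 := by
      rw [Complex.sq_norm, Complex.normSq_apply]; ring
    rw [hz1] at h5
    have h6 : ‖z - star z‖ ≤ 2 * ‖1 + (r : ℂ) * z‖ := by
      refine le_of_sq_le_sq ?_ (by positivity)
      rw [mul_pow, Complex.sq_norm, Complex.sq_norm, Complex.normSq_apply, Complex.normSq_apply]
      simp
      nlinarith [sq_nonneg (z.re + r)]
    nlinarith
  · have hna : ‖-((r : ℂ) • a)‖ < 1 := by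
      rw [norm_neg, norm_smul, Complex.norm_real, Real.norm_eq_abs, abs_of_nonneg hr0]
      have : ‖a‖ ≤ 1 := norm_le_one_of_star_mul (Unitary.mem_iff.mp ha).1
      nlinarith [norm_nonneg a]
    have h1 := mul_neg_geom_series (-((r : ℂ) • a)) hna
    have h2 : cfc f a * (1 - -((r : ℂ) • a)) = a + (r : ℂ) • 1 := by
      have e1 : (1 - -((r : ℂ) • a)) = cfc (fun z : ℂ => 1 + (r : ℂ) * z) a := by
        rw [cfc_const_add (1 : ℂ) (fun z : ℂ => (r : ℂ) * z) a, cfc_const_mul (r : ℂ)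
          (fun z : ℂ => z) a, cfc_id' ℂ a, map_one, sub_neg_eq_add]
      rw [e1, ← cfc_mul f (fun z : ℂ => 1 + (r : ℂ) * z) a hfc (by fun_prop)]
      have e2 : cfc (fun z => f z * (1 + (r : ℂ) * z)) a = cfc (fun z : ℂ => z + (r : ℂ)) a := by
        refine cfc_congr fun z hz => ?_
        have h0 := one_add_ne_zero r hr0 hr1 z (hspec z hz)
        rw [hf]
        exact div_mul_cancel₀ _ h0
      rw [e2, cfc_add_const (r : ℂ) (fun z : ℂ => z) a, cfc_id' ℂ a,
        Algebra.algebraMap_eq_smul_one]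
    calc cfc f a = cfc f a * ((1 - -((r : ℂ) • a)) * ∑' n : ℕ, (-((r : ℂ) • a)) ^ n) := by
          rw [h1, mul_one]
      _ = _ := by rw [← mul_assoc, h2]

end Abs

end TFS.SubA
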