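import Pool.Agent.Lib_helper1.TFS.TowerDef

/-!
# Subtask D: the groups are pairwise distinguished by first-order data
-/

set_option autoImplicit false
set_option linter.unusedSectionVars false

namespace TFS

namespace SubD

open Multiplicative (toAdd ofAdd)

/-- the distinguishing property -/
def PP {Γ : Type*} [Group Γ] (q : ℕ) (z : Γ) : Prop :=
  ∃ y c : Γ, Commute y z ∧ Commute ((y ^ q)⁻¹ * z) c ∧ ∀ N : ℕ, 0 < N → ¬ Commute (z ^ N) (c ^ N)

theorem PP.map {Γ Γ' : Type*} [Group Γ] [Group Γ'] {q : ℕ} {z : Γ} (f : Γ →* Γ')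
    (hf : Function.Injective f) (h : PP q z) : PP q (f z) := by
  obtain ⟨y, c, h1, h2, h3⟩ := h
  refine ⟨f y, f c, h1.map f, ?_, fun N hN hcom => h3 N hN ?_⟩
  · have := h2.map f
    simpa using this
  · rw [← map_pow, ← map_pow] at hcom
    have h4 : f (z ^ N * c ^ N) = f (c ^ N * z ^ N) := by
      rw [map_mul, map_mul]; exact hcom.eq
    exact hf h4

/-- marked element of a stage -/
structure Mark (s : St) (z : s.G) (p1 p2 : s.Ω) : Prop where
  ne : p1 ≠ p2
  n1 : St.n z p1 = 1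
  n2 : St.n z p2 = -1
  n0 : ∀ ω, ω ≠ p1 → ω ≠ p2 → St.n z ω = 0
  f1 : s.perm z p1 = p1
  f2 : s.perm z p2 = p2

theorem Mark.z_ne {s : St} {z : s.G} {p1 p2 : s.Ω} (h : Mark s z p1 p2) : z ≠ 1 := by
  rintro rfl
  have := h.n1
  rw [St.n_one] at this
  exact zero_ne_one this

variable {s t : St} (st : Step s t)

theorem Mark.step {z : s.G} {p1 p2 : s.Ω} (h : Mark s z p1 p2) (x : F6) :
    Mark t (st.c x z) (st.i p1) (st.i p2) where
  ne := fun h' => h.ne (st.i_inj h')
  n1 := by rw [st.n_c_i, h.n1]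
  n2 := by rw [st.n_c_i, h.n2]
  n0 := by
    intro w hw1 hw2
    by_cases hw : ∃ ω, st.i ω = w
    · obtain ⟨ω, rfl⟩ := hw
      rw [st.n_c_i]
      exact h.n0 ω (fun h' => hw1 (by rw [h'])) (fun h' => hw2 (by rw [h']))
    · exact st.n_c_of_ne x z (fun ω hω => hw ⟨ω, hω⟩)
  f1 := by rw [st.perm_c_i, h.f1]
  f2 := by rw [st.perm_c_i, h.f2]

/-- values of the image of a marked element -/
theorem v_p1 {z : s.G} {p1 p2 : s.Ω} (h : Mark s z p1 p2) (x : F6) :
    St.v (st.c x z) (st.i p1) = (x, 1, ofAdd 1) := by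
  rw [st.v_c, st.cv_i, h.n1, zpow_one]

theorem v_p2 {z : s.G} {p1 p2 : s.Ω} (h : Mark s z p1 p2) (x : F6) :
    St.v (st.c x z) (st.i p2) = (x⁻¹, 1, ofAdd (-1)) := by
  rw [st.v_c, st.cv_i, h.n2, zpow_neg, zpow_one]

theorem v_star (z : s.G) (x : F6) : St.v (st.c x z) st.star = (1, st.j z, 1) := by
  rw [st.v_c, st.cv_star]

theorem v_other {z : s.G} {p1 p2 : s.Ω} (h : Mark s z p1 p2) (x : F6) {w : t.Ω}
    (h1 : w ≠ st.i p1) (h2 : w ≠ st.i p2) (h3 : w ≠ st.star) : St.v (st.c x z) w = 1 := by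
  rw [st.v_c]
  rcases st.cases_w w with ⟨ω, rfl⟩ | rfl | ⟨h4, h5⟩
  · rw [st.cv_i, h.n0 ω (fun h' => h1 (by rw [h'])) (fun h' => h2 (by rw [h']))]
    rfl
  · exact absurd rfl h3
  · exact st.cv_of_ne x z h4 h5

/-- general facts on stages -/
theorem v_mul_fix {x y : t.G} {ω : t.Ω} (h : t.perm y ω = ω) :
    St.v (x * y) ω = St.v x ω * St.v y ω := by
  rw [St.v_mul, h]

theorem v_pow_fix {x : t.G} {ω : t.Ω} (h : t.perm x ω = ω) (n : ℕ) :
    St.v (x ^ n) ω = (St.v x ω) ^ n := by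
  induction n with
  | zero => rw [pow_zero, pow_zero, St.v_one]
  | succ n ih => rw [pow_succ, v_mul_fix h, ih, pow_succ]

theorem perm_pow_fix {x : t.G} {ω : t.Ω} (h : t.perm x ω = ω) (n : ℕ) :
    t.perm (x ^ n) ω = ω := by
  induction n with
  | zero => rw [pow_zero, map_one, Equiv.Perm.one_apply]
  | succ n ih => rw [pow_succ, map_mul, Equiv.Perm.mul_apply, h, ih]

theorem perm_inv_fix {x : t.G} {ω : t.Ω} (h : t.perm x ω = ω) : t.perm x⁻¹ ω = ω := by
  rw [map_inv, Equiv.Perm.inv_eq_iff_eq]; exact h.symm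

theorem v_inv_fix {x : t.G} {ω : t.Ω} (h : t.perm x ω = ω) :
    St.v x⁻¹ ω = (St.v x ω)⁻¹ := by
  refine eq_inv_of_mul_eq_one_left ?_
  rw [← v_mul_fix h, inv_mul_cancel, St.v_one]

theorem commute_v {x y : t.G} {ω : t.Ω} (hx : t.perm x ω = ω) (hy : t.perm y ω = ω)
    (h : Commute x y) : Commute (St.v x ω) (St.v y ω) := by
  have h1 : St.v (x * y) ω = St.v (y * x) ω := by rw [h.eq]
  rw [v_mul_fix hy, v_mul_fix hx] at h1
  exact h1

/-- elements with trivial permutations commute if their coordinates do -/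
theorem commute_of_coord {x y : t.G} (hx : t.perm x = 1) (hy : t.perm y = 1)
    (h : ∀ ω, Commute (St.v x ω) (St.v y ω)) : Commute x y := by
  apply St.G.ext
  · intro ω
    have e1 : St.v (x * y) ω = St.v x ω * St.v y ω := v_mul_fix (by rw [hy]; rfl)
    have e2 : St.v (y * x) ω = St.v y ω * St.v x ω := v_mul_fix (by rw [hx]; rfl)
    have e3 : St.v (x * y) ω = St.v (y * x) ω := by rw [e1, e2]; exact (h ω).eq
    exact e3
  · rw [map_mul, map_mul, Wr.mul_e, Wr.mul_e]
    exact t.alt.ker_comm _ _ hx hy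

theorem exists_pow_perm (x : t.G) : ∃ r : ℕ, 0 < r ∧ t.perm (x ^ r) = 1 := by
  refine ⟨orderOf (t.perm x), orderOf_pos _, ?_⟩
  rw [map_pow, pow_orderOf_eq_one]

theorem not_commute_pow {Γ : Type*} [Group Γ] {z c : Γ} {r : ℕ} (hr : 0 < r)
    (h : ∀ N : ℕ, 0 < N → ¬ Commute (z ^ N) (c ^ N)) :
    ∀ N : ℕ, 0 < N → ¬ Commute (z ^ N) ((c ^ r) ^ N) := by
  intro N hN hcom
  apply h (r * N) (Nat.mul_pos hr hN)
  rw [pow_mul c r N]
  have : z ^ (r * N) = (z ^ N) ^ r := by rw [← pow_mul, mul_comm]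
  rw [this]
  exact hcom.pow_left r

/-- the step lemma -/
theorem step_lemma {z : s.G} {p1 p2 : s.Ω} (h : Mark s z p1 p2) (x : F6) (q : ℕ)
    (hPP : PP q (st.c x z)) : (∃ η : F6, η ^ q = x) ∨ PP q z := by
  obtain ⟨y, c, hyz, hwc, hN⟩ := hPP
  set Z : t.G := st.c x z with hZ
  obtain ⟨r, hr, hrc⟩ := exists_pow_perm c
  set C : t.G := c ^ r with hC
  have hwC : Commute ((y ^ q)⁻¹ * Z) C := hwc.pow_right r
  have hNC : ∀ N : ℕ, 0 < N → ¬ Commute (Z ^ N) (C ^ N) := not_commute_pow hr hN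
  have hM : Mark t Z (st.i p1) (st.i p2) := h.step st x
  have hZs : t.perm Z st.star = st.star := st.perm_c_star x z
  -- y fixes the three points
  have hy1 : t.perm y (st.i p1) = st.i p1 := by
    have e1 : St.n (y * Z) (st.i p1) = St.n (Z * y) (st.i p1) := by rw [hyz.eq]
    rw [St.n_mul, St.n_mul, hM.f1, hM.n1] at e1
    by_contra hne
    by_cases h2 : t.perm y (st.i p1) = st.i p2
    · rw [h2, hM.n2] at e1; omega
    · rw [hM.n0 _ hne h2] at e1; omega
  have hy2 : t.perm y (st.i p2) = st.i p2 := by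
    have e1 : St.n (y * Z) (st.i p2) = St.n (Z * y) (st.i p2) := by rw [hyz.eq]
    rw [St.n_mul, St.n_mul, hM.f2, hM.n2] at e1
    by_contra hne
    by_cases h2 : t.perm y (st.i p2) = st.i p1
    · rw [h2, hM.n1] at e1; omega
    · rw [hM.n0 _ h2 hne] at e1; omega
  have hys : t.perm y st.star = st.star := by
    have e1 : St.v (y * Z) st.star = St.v (Z * y) st.star := by rw [hyz.eq]
    rw [St.v_mul, St.v_mul, hZs, v_star] at e1
    have e2 := congrArg (fun a => a.2.1) e1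
    simp only [Prod.snd_mul, Prod.fst_mul] at e2
    by_contra hne
    have e3 : (St.v Z (t.perm y st.star)).2.1 = 1 := by
      by_cases h1 : t.perm y st.star = st.i p1
      · rw [h1, v_p1 st h]
      by_cases h2 : t.perm y st.star = st.i p2
      · rw [h2, v_p2 st h]
      · rw [v_other st h x h1 h2 hne]; rfl
    rw [e3, one_mul] at e2
    have e4 : st.j z = 1 := by simpa using e2
    exact h.z_ne (by simpa using e4)
  have hZ1 := hM.f1
  have hZ2 := hM.f2
  have hCf : ∀ ω, t.perm C ω = ω := fun ω => by rw [hrc]; rfl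
  -- commutation of coordinates
  have key : ∀ ω : t.Ω, t.perm y ω = ω → t.perm Z ω = ω →
      Commute (St.v y ω) (St.v Z ω) ∧ Commute ((St.v y ω ^ q)⁻¹ * St.v Z ω) (St.v C ω) := by
    intro ω hy hZω
    refine ⟨commute_v hy hZω hyz, ?_⟩
    have hyq : t.perm (y ^ q) ω = ω := perm_pow_fix hy q
    have hyq' : t.perm (y ^ q)⁻¹ ω = ω := perm_inv_fix hyq
    have hw : t.perm ((y ^ q)⁻¹ * Z) ω = ω := by
      rw [map_mul, Equiv.Perm.mul_apply, hZω, hyq']
    have := commute_v hw (hCf ω) hwC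
    rwa [v_mul_fix hZω, v_inv_fix hyq, v_pow_fix hy] at this
  obtain ⟨R, hR, hRZ⟩ := exists_pow_perm Z
  -- powers of Z at other points
  have hZo : ∀ (n : ℕ) (ω : t.Ω), ω ≠ st.i p1 → ω ≠ st.i p2 → ω ≠ st.star →
      St.v (Z ^ n) ω = 1 := by
    intro n
    induction n with
    | zero => intro ω _ _ _; rw [pow_zero, St.v_one]
    | succ n ih =>
      intro ω h1 h2 h3
      rw [pow_succ, St.v_mul, v_other st h x h1 h2 h3, mul_one]
      apply ih
      · intro h4
        rw [← hZ1] at h4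
        exact h1 ((t.perm Z).injective h4)
      · intro h4
        rw [← hZ2] at h4
        exact h2 ((t.perm Z).injective h4)
      · intro h4
        rw [← hZs] at h4
        exact h3 ((t.perm Z).injective h4)
  -- the trichotomy
  have htri : ∀ N' : ℕ, 0 < N' → ¬ Commute (x ^ (R * N')) ((St.v C (st.i p1)).1 ^ (R * N')) ∨
      ¬ Commute ((x⁻¹) ^ (R * N')) ((St.v C (st.i p2)).1 ^ (R * N')) ∨
      ¬ Commute ((st.j z) ^ (R * N')) ((St.v C st.star).2.1 ^ (R * N')) := by
    intro N' hN'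
    by_contra hcon
    push Not at hcon
    obtain ⟨h1, h2, h3⟩ := hcon
    apply hNC (R * N') (Nat.mul_pos hR hN')
    apply commute_of_coord
    · rw [pow_mul, map_pow, hRZ, one_pow]
    · rw [map_pow, hrc, one_pow]
    · intro ω
      rw [v_pow_fix (hCf ω)]
      by_cases w1 : ω = st.i p1
      · subst w1
        rw [v_pow_fix hZ1, v_p1 st h]
        rw [Prod.commute_iff, Prod.commute_iff]
        refine ⟨h1, ?_, Commute.all _ _⟩
        show Commute ((1 : t.B) ^ (R * N')) _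
        rw [one_pow]
        exact Commute.one_left _
      by_cases w2 : ω = st.i p2
      · subst w2
        rw [v_pow_fix hZ2, v_p2 st h]
        rw [Prod.commute_iff, Prod.commute_iff]
        refine ⟨h2, ?_, Commute.all _ _⟩
        show Commute ((1 : t.B) ^ (R * N')) _
        rw [one_pow]
        exact Commute.one_left _
      by_cases w3 : ω = st.star
      · subst w3
        rw [v_pow_fix hZs, v_star]
        rw [Prod.commute_iff, Prod.commute_iff]
        refine ⟨?_, h3, Commute.all _ _⟩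
        show Commute ((1 : F6) ^ (R * N')) _
        rw [one_pow]
        exact Commute.one_left _
      · rw [hZo _ ω w1 w2 w3]
        exact Commute.one_left _
  obtain ⟨k11, k12⟩ := key _ hy1 hZ1
  obtain ⟨k21, k22⟩ := key _ hy2 hZ2
  obtain ⟨ks1, ks2⟩ := key _ hys hZs
  rw [v_p1 st h] at k11 k12
  rw [v_p2 st h] at k21 k22
  rw [v_star] at ks1 ks2
  rw [Prod.commute_iff, Prod.commute_iff] at k11 k12 k21 k22 ks1 ks2
  -- free group argument
  have free : ∀ (x' η d : F6) (N : ℕ), Commute η x' → Commute ((η ^ q)⁻¹ * x') d →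
      ¬ Commute (x' ^ N) (d ^ N) → η ^ q = x' := by
    intro x' η d N h1 h2 h3
    by_contra hne
    have hne' : (η ^ q)⁻¹ * x' ≠ 1 := by
      intro h4
      apply hne
      rw [inv_mul_eq_one] at h4
      exact h4
    have h5 : Commute ((η ^ q)⁻¹ * x') x' :=
      ((h1.pow_left q).inv_left).mul_left (Commute.refl x')
    have h6 : Commute x' d := FG.ct hne' h5 h2
    exact h3 (h6.pow_pow N N)
  by_cases c1 : ∃ N, ¬ Commute (x ^ N) ((St.v C (st.i p1)).1 ^ N)
  · obtain ⟨N, hN1⟩ := c1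
    exact Or.inl ⟨_, free x _ _ N k11.1 k12.1 hN1⟩
  by_cases c2 : ∃ N, ¬ Commute ((x⁻¹) ^ N) ((St.v C (st.i p2)).1 ^ N)
  · obtain ⟨N, hN1⟩ := c2
    have := free x⁻¹ _ _ N k21.1 k22.1 hN1
    exact Or.inl ⟨((St.v y (st.i p2)).1)⁻¹, by rw [inv_pow, this, inv_inv]⟩
  push Not at c1 c2
  right
  have hB : ∀ N : ℕ, 0 < N → ¬ Commute ((st.j z) ^ N) ((St.v C st.star).2.1 ^ N) := by
    intro N hN0 hcom
    rcases htri N hN0 with h1 | h1 | h1
    · exact h1 (c1 _)
    · exact h1 (c2 _)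
    · apply h1
      rw [mul_comm, pow_mul, pow_mul]
      exact hcom.pow_pow R R
  refine ⟨st.j.symm (St.v y st.star).2.1, st.j.symm (St.v C st.star).2.1, ?_, ?_, ?_⟩
  · have := (ks1.2.1).map st.j.symm
    simpa using this
  · have := (ks2.2.1).map st.j.symm
    simpa using this
  · intro N hN0 hcom
    apply hB N hN0
    have := hcom.map st.j
    simpa using this

end SubD

end TFS
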